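import Pool.Agent.Helper37.XL.Defs

/-!
# Basic facts on `L` and explicit embeddings of `L`
-/

namespace Pool.Agent.Helper37.XL

open SimpleGraph Finset

private theorem xlbasic_reach (i : Fin 10) : L.Reachable 0 i := by
  have h1 : L.Adj 0 1 := by decide
  have h2 : L.Adj 0 2 := by decide
  have h5 : L.Adj 0 5 := by decide
  have h6 : L.Adj 0 6 := by decide
  have h7 : L.Adj 0 7 := by decide
  have h8 : L.Adj 0 8 := by decide
  have h9 : L.Adj 0 9 := by decide
  have h3 : L.Adj 2 3 := by decide
  have h4 : L.Adj 5 4 := by decide
  fin_cases i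
  · exact Reachable.refl _
  · exact h1.reachable
  · exact h2.reachable
  · exact h2.reachable.trans h3.reachable
  · exact h5.reachable.trans h4.reachable
  · exact h5.reachable
  · exact h6.reachable
  · exact h7.reachable
  · exact h8.reachable
  · exact h9.reachable

theorem L_connected : L.Connected :=
  { preconnected := fun i j => (xlbasic_reach i).symm.trans (xlbasic_reach j)
    nonempty := ⟨0⟩ }

/-- The 3-colouring of `L`. -/
private def xlbasic_col : Fin 10 → Fin 3 := ![0, 2, 2, 1, 2, 1, 2, 1, 2, 1]

private theorem xlbasic_col_valid : ∀ i j : Fin 10, L.Adj i j → xlbasic_col i ≠ xlbasic_col j := by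
  decide

theorem L_chromatic : L.chromaticNumber = 3 := by
  have hle : L.chromaticNumber ≤ 3 := by
    have hC : L.Colorable 3 :=
      ⟨Coloring.mk xlbasic_col (fun {i j} h => xlbasic_col_valid i j h)⟩
    exact_mod_cast hC.chromaticNumber_le
  refine le_antisymm hle ?_
  have hcl : L.IsNClique 3 ({0, 1, 7} : Finset (Fin 10)) := by
    rw [is3Clique_triple_iff]
    exact ⟨by decide, by decide, by decide⟩
  have h := hcl.isClique.card_le_chromaticNumber
  rw [hcl.card_eq] at h
  exact_mod_cast h

/-- Embedding `L` with a given bipartition `c` of its vertices, everything across being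
adjacent. -/
theorem copy_of_sides {V : Type} (G : SimpleGraph V) (f : Fin 10 → V) (c : Fin 10 → Bool)
    (hcross : ∀ i j, c i = true → c j = false → G.Adj (f i) (f j))
    (hinj : ∀ i j, c i = c j → f i = f j → i = j)
    (hin : ∀ i j, c i = c j → L.Adj i j → i < j → G.Adj (f i) (f j)) : L ⊑ G := by
  have hx : ∀ i j, c i ≠ c j → G.Adj (f i) (f j) := by
    intro i j h
    cases hi : c i <;> cases hj : c j
    · exact absurd (hi.trans hj.symm) h
    · exact (hcross j i hj hi).symm
    · exact hcross i j hi hj
    · exact absurd (hi.trans hj.symm) h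
  refine ⟨⟨⟨f, ?_⟩, ?_⟩⟩
  · intro i j hij
    by_cases hc : c i = c j
    · rcases lt_trichotomy i j with hlt | heq | hgt
      · exact hin i j hc hij hlt
      · exact absurd (heq ▸ hij) (L.irrefl)
      · exact (hin j i hc.symm hij.symm hgt).symm
    · exact hx i j hc
  · intro i j hij
    by_cases hc : c i = c j
    · exact hinj i j hc hij
    · have h1 : G.Adj (f i) (f j) := hx i j hc
      have h2 : f i = f j := hij
      rw [h2] at h1
      exact absurd h1 (G.irrefl)

/-- A vertex `a 0` with three neighbours `a 1, a 2, a 3` on its side: `L - 0` is bipartite with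
classes `3, 5, 7, 9` and `1, 2, 4, 6, 8`; take `0 ↦ a 0`, `5, 7, 9 ↦ a 1, a 2, a 3`, `3 ↦ a 4`. -/
theorem star_copy {V : Type} [DecidableEq V] (G : SimpleGraph V) (a : Fin 5 → V)
    (ha : Function.Injective a) (h1 : G.Adj (a 0) (a 1)) (h2 : G.Adj (a 0) (a 2))
    (h3 : G.Adj (a 0) (a 3)) (B : Finset V) (hB : 5 ≤ #B)
    (hadj : ∀ i, ∀ b ∈ B, G.Adj (a i) b) : L ⊑ G := by
  obtain ⟨B', hB', hcard⟩ := Finset.exists_subset_card_eq hB
  obtain ⟨e⟩ : Nonempty (Fin 5 ≃ B') := by
    refine ⟨(Finset.equivFinOfCardEq hcard).symm⟩
  let b : Fin 5 → V := fun i => (e i : V)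
  have hb : Function.Injective b := fun i j h => e.injective (Subtype.ext h)
  have hab : ∀ i j, G.Adj (a i) (b j) := fun i j => hadj i _ (hB' (e j).2)
  refine copy_of_sides G ![a 0, b 0, b 1, a 4, b 2, a 1, b 3, a 2, b 4, a 3]
    ![true, false, false, true, false, true, false, true, false, true] ?_ ?_ ?_
  · intro i j hi hj
    fin_cases i <;> fin_cases j <;> first
      | exact hab _ _
      | exact absurd hi (by decide)
      | exact absurd hj (by decide)
  · intro i j hc hf
    fin_cases i <;> fin_cases j <;> first
      | rfl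
      | exact absurd hc (by decide)
      | exact absurd (ha hf) (by decide)
      | exact absurd (hb hf) (by decide)
  · intro i j hc hL hlt
    fin_cases i <;> fin_cases j <;> first
      | exact absurd hlt (by decide)
      | exact absurd hc (by decide)
      | exact absurd hL (by decide)
      | exact h1
      | exact h2
      | exact h3

/-- A copy of `K_{5,5}` in the neighbourhood of `v`: `0 ↦ v`, `3, 5, 7, 9` in one class and
`1, 2, 4, 6, 8` in the other. -/
theorem kk_copy {V : Type} (G : SimpleGraph V) (v : V) (f g : Fin 5 → V)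
    (hf : Function.Injective f) (hg : Function.Injective g) (hvf : ∀ i, G.Adj v (f i))
    (hvg : ∀ i, G.Adj v (g i)) (hfg : ∀ i j, G.Adj (f i) (g j)) : L ⊑ G := by
  have hne : ∀ i, v ≠ f i := fun i => (hvf i).ne
  refine copy_of_sides G ![v, g 0, g 1, f 0, g 2, f 1, g 3, f 2, g 4, f 3]
    ![true, false, false, true, false, true, false, true, false, true] ?_ ?_ ?_
  · intro i j hi hj
    fin_cases i <;> fin_cases j <;> first
      | exact hfg _ _
      | exact hvg _
      | exact absurd hi (by decide)
      | exact absurd hj (by decide)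
  · intro i j hc hh
    fin_cases i <;> fin_cases j <;> first
      | rfl
      | exact absurd hc (by decide)
      | exact absurd (hf hh) (by decide)
      | exact absurd (hg hh) (by decide)
      | exact absurd hh (hne _)
      | exact absurd hh.symm (hne _)
  · intro i j hc hL hlt
    fin_cases i <;> fin_cases j <;> first
      | exact absurd hlt (by decide)
      | exact absurd hc (by decide)
      | exact absurd hL (by decide)
      | exact hvf _

/-- A 4-cycle `a 0, a 1, a 2, a 3` on one side: partition `1, 7, 8, 9, 3, 5 | 0, 2, 6, 4`. -/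
theorem c4_copy {V : Type} (G : SimpleGraph V) (a : Fin 6 → V) (b : Fin 4 → V)
    (ha : Function.Injective a) (hb : Function.Injective b) (hab : ∀ i j, G.Adj (a i) (b j))
    (h1 : G.Adj (a 0) (a 1)) (h2 : G.Adj (a 1) (a 2)) (h3 : G.Adj (a 2) (a 3))
    (h4 : G.Adj (a 3) (a 0)) (h5 : G.Adj (b 0) (b 1)) (h6 : G.Adj (b 0) (b 2)) : L ⊑ G := by
  refine copy_of_sides G ![b 0, a 0, b 1, a 4, b 3, a 5, b 2, a 1, a 2, a 3]
    ![false, true, false, true, false, true, false, true, true, true] ?_ ?_ ?_
  · intro i j hi hj
    fin_cases i <;> fin_cases j <;> first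
      | exact hab _ _
      | exact absurd hi (by decide)
      | exact absurd hj (by decide)
  · intro i j hc hh
    fin_cases i <;> fin_cases j <;> first
      | rfl
      | exact absurd hc (by decide)
      | exact absurd (ha hh) (by decide)
      | exact absurd (hb hh) (by decide)
  · intro i j hc hL hlt
    fin_cases i <;> fin_cases j <;> first
      | exact absurd hlt (by decide)
      | exact absurd hc (by decide)
      | exact absurd hL (by decide)
      | exact h1
      | exact h2
      | exact h3
      | exact h4.symm
      | exact h5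
      | exact h6

/-- A path on five vertices on each side: partition `1, 0, 2, 3, 4 | 5, 6, 7, 8, 9`. -/
theorem p5_copy {V : Type} (G : SimpleGraph V) (a b : Fin 5 → V)
    (ha : Function.Injective a) (hb : Function.Injective b) (hab : ∀ i j, G.Adj (a i) (b j))
    (h1 : ∀ i : Fin 4, G.Adj (a i.castSucc) (a i.succ))
    (h2 : ∀ i : Fin 4, G.Adj (b i.castSucc) (b i.succ)) : L ⊑ G := by
  have a01 : G.Adj (a 0) (a 1) := h1 0
  have a12 : G.Adj (a 1) (a 2) := h1 1
  have a23 : G.Adj (a 2) (a 3) := h1 2
  have a34 : G.Adj (a 3) (a 4) := h1 3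
  have b01 : G.Adj (b 0) (b 1) := h2 0
  have b12 : G.Adj (b 1) (b 2) := h2 1
  have b23 : G.Adj (b 2) (b 3) := h2 2
  have b34 : G.Adj (b 3) (b 4) := h2 3
  refine copy_of_sides G ![a 1, a 0, a 2, a 3, a 4, b 0, b 1, b 2, b 3, b 4]
    ![true, true, true, true, true, false, false, false, false, false] ?_ ?_ ?_
  · intro i j hi hj
    fin_cases i <;> fin_cases j <;> first
      | exact hab _ _
      | exact absurd hi (by decide)
      | exact absurd hj (by decide)
  · intro i j hc hh
    fin_cases i <;> fin_cases j <;> first
      | rfl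
      | exact absurd hc (by decide)
      | exact absurd (ha hh) (by decide)
      | exact absurd (hb hh) (by decide)
  · intro i j hc hL hlt
    fin_cases i <;> fin_cases j <;> first
      | exact absurd hlt (by decide)
      | exact absurd hc (by decide)
      | exact absurd hL (by decide)
      | exact a01.symm
      | exact a12
      | exact a23
      | exact a34
      | exact b01
      | exact b12
      | exact b23
      | exact b34

end Pool.Agent.Helper37.XL
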