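import Pool.Agent.Helper37.XL.Partition

/-!
# Constructions: joins of disjoint unions of triangles with an exceptional component
-/

namespace Pool.Agent.Helper37.XL

open SimpleGraph Finset Fintype

private theorem xlcons_deg_inl {V W : Type} [Fintype V] [Fintype W] [DecidableEq V] [DecidableEq W]
    (G : SimpleGraph V) (H : SimpleGraph W) [DecidableRel G.Adj] [DecidableRel H.Adj]
    [DecidableRel (join G H).Adj] (v : V) :
    (join G H).degree (Sum.inl v) = G.degree v + card W := by
  have h : (join G H).neighborFinset (Sum.inl v) = (G.neighborFinset v).disjSum univ := by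
    ext x
    rcases x with x | x <;> simp [join, mem_neighborFinset]
  rw [← card_neighborFinset_eq_degree, h, card_disjSum, card_neighborFinset_eq_degree]
  rfl

private theorem xlcons_deg_inr {V W : Type} [Fintype V] [Fintype W] [DecidableEq V] [DecidableEq W]
    (G : SimpleGraph V) (H : SimpleGraph W) [DecidableRel G.Adj] [DecidableRel H.Adj]
    [DecidableRel (join G H).Adj] (w : W) :
    (join G H).degree (Sum.inr w) = card V + H.degree w := by
  have h : (join G H).neighborFinset (Sum.inr w) = univ.disjSum (H.neighborFinset w) := by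
    ext x
    rcases x with x | x <;> simp [join, mem_neighborFinset]
  rw [← card_neighborFinset_eq_degree, h, card_disjSum, card_neighborFinset_eq_degree]
  rfl

/-- Number of edges of a join (stated for a transported copy on `Fin n`). -/
theorem join_edges {V W : Type} [Fintype V] [Fintype W] [DecidableEq V] [DecidableEq W]
    (G : SimpleGraph V) (H : SimpleGraph W) [DecidableRel G.Adj] [DecidableRel H.Adj]
    [DecidableRel (join G H).Adj] :
    #(join G H).edgeFinset = #G.edgeFinset + #H.edgeFinset + card V * card W := by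
  have h := sum_degrees_eq_twice_card_edges (join G H)
  have hG := sum_degrees_eq_twice_card_edges G
  have hH := sum_degrees_eq_twice_card_edges H
  rw [Fintype.sum_sum_type] at h
  simp only [xlcons_deg_inl, xlcons_deg_inr, sum_add_distrib, sum_const, card_univ,
    smul_eq_mul, hG, hH] at h
  nlinarith [h]

private theorem xlcons_tdeg_inl (t : ℕ) {l : ℕ} (K : SimpleGraph (Fin l)) [DecidableRel K.Adj]
    [DecidableRel (tri t K).Adj] (a : Fin t × Fin 3) :
    (tri t K).degree (Sum.inl a) = 2 := by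
  have h : (tri t K).neighborFinset (Sum.inl a) =
      (((univ : Finset (Fin 3)).erase a.2).map ⟨fun j => (a.1, j), fun i j hij => by
        simpa using hij⟩).disjSum (∅ : Finset (Fin l)) := by
    ext x
    rcases x with x | x
    · simp only [mem_neighborFinset, tri, inl_mem_disjSum, mem_map, mem_erase, mem_univ,
        Function.Embedding.coeFn_mk, and_true]
      constructor
      · rintro ⟨h1, h2⟩
        exact ⟨x.2, fun h => h2 h.symm, by rw [h1]⟩
      · rintro ⟨j, h1, rfl⟩
        exact ⟨rfl, fun h => h1 h.symm⟩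
    · simp [tri, mem_neighborFinset]
  rw [← card_neighborFinset_eq_degree, h, card_disjSum, card_map, card_erase_of_mem (mem_univ _)]
  simp

private theorem xlcons_tdeg_inr (t : ℕ) {l : ℕ} (K : SimpleGraph (Fin l)) [DecidableRel K.Adj]
    [DecidableRel (tri t K).Adj] (a : Fin l) :
    (tri t K).degree (Sum.inr a) = K.degree a := by
  have h : (tri t K).neighborFinset (Sum.inr a) =
      (∅ : Finset (Fin t × Fin 3)).disjSum (K.neighborFinset a) := by
    ext x
    rcases x with x | x <;> simp [tri, mem_neighborFinset]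
  rw [← card_neighborFinset_eq_degree, h, card_disjSum, card_neighborFinset_eq_degree]
  simp

/-- Number of edges of `t` triangles and `K`. -/
theorem tri_edges (t : ℕ) {l : ℕ} (K : SimpleGraph (Fin l)) [DecidableRel K.Adj]
    [DecidableRel (tri t K).Adj] : #(tri t K).edgeFinset = 3 * t + #K.edgeFinset := by
  have h := sum_degrees_eq_twice_card_edges (tri t K)
  have hK := sum_degrees_eq_twice_card_edges K
  rw [Fintype.sum_sum_type] at h
  simp only [xlcons_tdeg_inl, xlcons_tdeg_inr, hK, sum_const, card_univ, card_prod,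
    Fintype.card_fin, smul_eq_mul] at h
  omega

/-- Maximum degree of `t` triangles and `K`. -/
theorem tri_degree_le (t : ℕ) {l : ℕ} (K : SimpleGraph (Fin l)) [DecidableRel K.Adj]
    [DecidableRel (tri t K).Adj] (hK : ∀ v, K.degree v ≤ 2) (v : TV t l) :
    (tri t K).degree v ≤ 2 := by
  rcases v with a | a
  · rw [xlcons_tdeg_inl]
  · rw [xlcons_tdeg_inr]; exact hK a

/-- A path with four vertices in `tri t K` lies in the part `K`. -/
theorem tri_path (t : ℕ) {l : ℕ} (K : SimpleGraph (Fin l)) (p : Fin 4 → TV t l)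
    (hp : Function.Injective p) (h1 : (tri t K).Adj (p 0) (p 1)) (h2 : (tri t K).Adj (p 1) (p 2))
    (h3 : (tri t K).Adj (p 2) (p 3)) (i : Fin 4) : ∃ x : Fin l, p i = Sum.inr x := by
  have key : (∃ a : Fin t, ∀ i, ∃ j : Fin 3, p i = Sum.inl (a, j)) ∨
      (∀ i, ∃ x : Fin l, p i = Sum.inr x) := by
    rcases e0 : p 0 with a0 | a0 <;> rcases e1 : p 1 with a1 | a1 <;>
      rcases e2 : p 2 with a2 | a2 <;> rcases e3 : p 3 with a3 | a3 <;>
      rw [e0, e1] at h1 <;> rw [e1, e2] at h2 <;> rw [e2, e3] at h3 <;>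
      first | exact absurd h1 id | exact absurd h2 id | exact absurd h3 id | skip
    · left
      obtain ⟨h1, -⟩ := h1
      obtain ⟨h2, -⟩ := h2
      obtain ⟨h3, -⟩ := h3
      refine ⟨a0.1, fun i => ?_⟩
      fin_cases i
      · exact ⟨a0.2, e0⟩
      · exact ⟨a1.2, by rw [h1]; exact e1⟩
      · exact ⟨a2.2, by rw [h1, h2]; exact e2⟩
      · exact ⟨a3.2, by rw [h1, h2, h3]; exact e3⟩
    · right
      intro i
      fin_cases i
      · exact ⟨a0, e0⟩
      · exact ⟨a1, e1⟩
      · exact ⟨a2, e2⟩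
      · exact ⟨a3, e3⟩
  rcases key with ⟨a, ha⟩ | h
  · choose j hj using ha
    have hinj : Function.Injective j := by
      intro x y hxy
      apply hp
      rw [hj x, hj y, hxy]
    have := Fintype.card_le_of_injective j hinj
    simp at this
  · exact h i

/-- A 4-cycle in `tri t K` gives a 4-cycle in `K`. -/
theorem tri_c4 (t : ℕ) {l : ℕ} (K : SimpleGraph (Fin l))
    (hK : ∀ x y z w : Fin l, K.Adj x y → K.Adj y z → K.Adj z w → K.Adj w x → x = z ∨ y = w)
    (x y z w : TV t l) (h1 : (tri t K).Adj x y) (h2 : (tri t K).Adj y z)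
    (h3 : (tri t K).Adj z w) (h4 : (tri t K).Adj w x) : x = z ∨ y = w := by
  rcases x with ⟨x1, x2⟩ | x <;> rcases y with ⟨y1, y2⟩ | y <;> rcases z with ⟨z1, z2⟩ | z <;>
    rcases w with ⟨w1, w2⟩ | w <;>
    first | exact absurd h1 id | exact absurd h2 id | exact absurd h3 id | exact absurd h4 id | skip
  · obtain ⟨h1, h1'⟩ := h1
    obtain ⟨h2, h2'⟩ := h2
    obtain ⟨h3, h3'⟩ := h3
    obtain ⟨h4, h4'⟩ := h4
    simp only at h1 h2 h3 h1' h2' h3' h4'
    subst h1 h2 h3
    have : ∀ a b c d : Fin 3, a ≠ b → b ≠ c → c ≠ d → d ≠ a → a = c ∨ b = d := by decide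
    rcases this x2 y2 z2 w2 h1' h2' h3' h4' with h | h
    · left; rw [h]
    · right; rw [h]
  · rcases hK x y z w h1 h2 h3 h4 with h | h
    · left; rw [h]
    · right; rw [h]

private theorem xlcons_inner {V W : Type} [Fintype V] [Fintype W] [DecidableEq V] [DecidableEq W]
    (G : SimpleGraph V) (H : SimpleGraph W) [DecidableRel G.Adj] [DecidableRel H.Adj]
    (hG : ∀ v, G.degree v ≤ 2) (hH : ∀ v, H.degree v ≤ 2)
    (f : Copy L (join G H)) (v : Fin 10) :
    #{w | L.Adj v w ∧ (f w).isLeft = (f v).isLeft} ≤ 2 := by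
  rcases e : f v with a | b
  · have h1 : #{w | L.Adj v w ∧ (f w).isLeft = (Sum.inl a : V ⊕ W).isLeft} ≤
        #((G.neighborFinset a).map (⟨Sum.inl, Sum.inl_injective⟩ : V ↪ V ⊕ W)) := by
      refine card_le_card_of_injOn (fun w => f w) ?_ (fun x _ y _ h => f.injective h)
      intro w hw
      simp only [coe_filter, mem_univ, true_and, Set.mem_ofPred_eq, Sum.isLeft_inl] at hw
      obtain ⟨h1, h2⟩ := hw
      have h3 := f.toHom.map_adj h1
      simp only [Copy.toHom_apply] at h3
      rw [e] at h3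
      rcases ew : f w with x | y
      · rw [ew] at h3
        simp only [coe_map, Set.mem_image, mem_coe, mem_neighborFinset]
        exact ⟨x, h3, ew.symm⟩
      · rw [ew] at h2; simp at h2
    rw [card_map, card_neighborFinset_eq_degree] at h1
    exact h1.trans (hG a)
  · have h1 : #{w | L.Adj v w ∧ (f w).isLeft = (Sum.inr b : V ⊕ W).isLeft} ≤
        #((H.neighborFinset b).map (⟨Sum.inr, Sum.inr_injective⟩ : W ↪ V ⊕ W)) := by
      refine card_le_card_of_injOn (fun w => f w) ?_ (fun x _ y _ h => f.injective h)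
      intro w hw
      simp only [coe_filter, mem_univ, true_and, Set.mem_ofPred_eq, Sum.isLeft_inr] at hw
      obtain ⟨h1, h2⟩ := hw
      have h3 := f.toHom.map_adj h1
      simp only [Copy.toHom_apply] at h3
      rw [e] at h3
      rcases ew : f w with x | y
      · rw [ew] at h2; simp at h2
      · rw [ew] at h3
        simp only [coe_map, Set.mem_image, mem_coe, mem_neighborFinset]
        exact ⟨y, h3, ew.symm⟩
    rw [card_map, card_neighborFinset_eq_degree] at h1
    exact h1.trans (hH b)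

private theorem xlcons_left {V W : Type} {s : V ⊕ W} (h : s.isLeft = true) : ∃ a, s = Sum.inl a := by
  rcases s with a | b
  · exact ⟨a, rfl⟩
  · simp at h

private theorem xlcons_right {V W : Type} {s : V ⊕ W} (h : s.isLeft = false) :
    ∃ a, s = Sum.inr a := by
  rcases s with a | b
  · simp at h
  · exact ⟨b, rfl⟩

/-- Where a copy of `L` in a join of two graphs without 4-cycles and of maximum degree at most
two can be: both sides are used, and every vertex is on a path with four vertices on its side. -/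
theorem copy_in_join {V W : Type} [Fintype V] [Fintype W] [DecidableEq V] [DecidableEq W]
    (G : SimpleGraph V) (H : SimpleGraph W) [DecidableRel G.Adj] [DecidableRel H.Adj]
    (hG : ∀ v, G.degree v ≤ 2) (hH : ∀ v, H.degree v ≤ 2)
    (hG4 : ∀ x y z w, G.Adj x y → G.Adj y z → G.Adj z w → G.Adj w x → x = z ∨ y = w)
    (hH4 : ∀ x y z w, H.Adj x y → H.Adj y z → H.Adj z w → H.Adj w x → x = z ∨ y = w)
    (f : Copy L (join G H)) :
    (∃ i v, f i = Sum.inl v) ∧ (∃ i w, f i = Sum.inr w) ∧
    (∀ i v, f i = Sum.inl v → ∃ p : Fin 4 → V, Function.Injective p ∧ G.Adj (p 0) (p 1) ∧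
      G.Adj (p 1) (p 2) ∧ G.Adj (p 2) (p 3) ∧ ∃ j, p j = v) ∧
    (∀ i w, f i = Sum.inr w → ∃ p : Fin 4 → W, Function.Injective p ∧ H.Adj (p 0) (p 1) ∧
      H.Adj (p 1) (p 2) ∧ H.Adj (p 2) (p 3) ∧ ∃ j, p j = w) := by
  have hadj : ∀ {x y}, L.Adj x y → (join G H).Adj (f x) (f y) := fun h => f.toHom.map_adj h
  rcases partition (fun i => (f i).isLeft) (fun v => xlcons_inner G H hG hH f v) with h | h
  · exfalso
    obtain ⟨x, y, z, w, hxz, hyw, h1, h2, h3, h4, c1, c2, c3⟩ := h
    replace h1 := hadj h1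
    replace h2 := hadj h2
    replace h3 := hadj h3
    replace h4 := hadj h4
    have hinj : ∀ {i j}, f i = f j → i = j := fun h => f.injective h
    rcases ex : f x with a | a
    · obtain ⟨b, eb⟩ := xlcons_left (s := f y) (by rw [← c1, ex]; rfl)
      obtain ⟨c, ec⟩ := xlcons_left (s := f z) (by rw [← c2, eb]; rfl)
      obtain ⟨d, ed⟩ := xlcons_left (s := f w) (by rw [← c3, ec]; rfl)
      rw [ex, eb] at h1
      rw [eb, ec] at h2
      rw [ec, ed] at h3
      rw [ed, ex] at h4
      rcases hG4 a b c d h1 h2 h3 h4 with h | h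
      · exact hxz (hinj (by rw [ex, ec, h]))
      · exact hyw (hinj (by rw [eb, ed, h]))
    · obtain ⟨b, eb⟩ := xlcons_right (s := f y) (by rw [← c1, ex]; rfl)
      obtain ⟨c, ec⟩ := xlcons_right (s := f z) (by rw [← c2, eb]; rfl)
      obtain ⟨d, ed⟩ := xlcons_right (s := f w) (by rw [← c3, ec]; rfl)
      rw [ex, eb] at h1
      rw [eb, ec] at h2
      rw [ec, ed] at h3
      rw [ed, ex] at h4
      rcases hH4 a b c d h1 h2 h3 h4 with h | h
      · exact hxz (hinj (by rw [ex, ec, h]))
      · exact hyw (hinj (by rw [eb, ed, h]))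
  · obtain ⟨⟨i, hi⟩, ⟨j, hj⟩, hp⟩ := h
    refine ⟨?_, ?_, ?_, ?_⟩
    · obtain ⟨a, ha⟩ := xlcons_left hi
      exact ⟨i, a, ha⟩
    · obtain ⟨a, ha⟩ := xlcons_right hj
      exact ⟨j, a, ha⟩
    · intro i v hv
      obtain ⟨p, hpi, h1, h2, h3, hc, j, hj⟩ := hp i
      have hl : ∀ k, ∃ a, f (p k) = Sum.inl a := fun k =>
        xlcons_left (by have := hc k; rw [this, hv]; rfl)
      choose q hq using hl
      replace h1 := hadj h1
      replace h2 := hadj h2
      replace h3 := hadj h3
      rw [hq, hq] at h1 h2 h3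
      refine ⟨q, ?_, h1, h2, h3, j, ?_⟩
      · intro x y hxy
        apply hpi
        apply f.injective
        change f (p x) = f (p y)
        rw [hq, hq, hxy]
      · have h5 : f (p j) = Sum.inl v := by rw [hj, hv]
        rw [hq] at h5
        exact Sum.inl_injective h5
    · intro i v hv
      obtain ⟨p, hpi, h1, h2, h3, hc, j, hj⟩ := hp i
      have hl : ∀ k, ∃ a, f (p k) = Sum.inr a := fun k =>
        xlcons_right (by have := hc k; rw [this, hv]; rfl)
      choose q hq using hl
      replace h1 := hadj h1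
      replace h2 := hadj h2
      replace h3 := hadj h3
      rw [hq, hq] at h1 h2 h3
      refine ⟨q, ?_, h1, h2, h3, j, ?_⟩
      · intro x y hxy
        apply hpi
        apply f.injective
        change f (p x) = f (p y)
        rw [hq, hq, hxy]
      · have h5 : f (p j) = Sum.inr v := by rw [hj, hv]
        rw [hq] at h5
        exact Sum.inr_injective h5

private theorem xlcons_c7 : (∀ v, (cycleGraph 7).degree v ≤ 2) ∧
    (∀ x y z w : Fin 7, (cycleGraph 7).Adj x y → (cycleGraph 7).Adj y z → (cycleGraph 7).Adj z w →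
      (cycleGraph 7).Adj w x → x = z ∨ y = w) := by
  constructor
  · decide +kernel
  · decide +kernel

private theorem xlcons_c5 : (∀ v, (cycleGraph 5).degree v ≤ 2) ∧
    (∀ x y z w : Fin 5, (cycleGraph 5).Adj x y → (cycleGraph 5).Adj y z → (cycleGraph 5).Adj z w →
      (cycleGraph 5).Adj w x → x = z ∨ y = w) := by
  constructor
  · decide +kernel
  · decide +kernel

private theorem xlcons_e7 : #(cycleGraph 7).edgeFinset = 7 := by decide +kernel
private theorem xlcons_e5 : #(cycleGraph 5).edgeFinset = 5 := by decide +kernel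

/-- no copy if the left exceptional part has at most three vertices -/
theorem free_join {t l t' l' : ℕ} (K : SimpleGraph (Fin l)) (K' : SimpleGraph (Fin l'))
    [DecidableRel K.Adj] [DecidableRel K'.Adj]
    (hK : (∀ v, K.degree v ≤ 2) ∧
      ∀ x y z w : Fin l, K.Adj x y → K.Adj y z → K.Adj z w → K.Adj w x → x = z ∨ y = w)
    (hK' : (∀ v, K'.degree v ≤ 2) ∧
      ∀ x y z w : Fin l', K'.Adj x y → K'.Adj y z → K'.Adj z w → K'.Adj w x → x = z ∨ y = w)
    (hl : l < 4) : L.Free (join (tri t K) (tri t' K')) := by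
  classical
  rintro ⟨f⟩
  obtain ⟨⟨i, v, hv⟩, -, h, -⟩ := copy_in_join (tri t K) (tri t' K') (tri_degree_le t K hK.1)
    (tri_degree_le t' K' hK'.1) (tri_c4 t K hK.2) (tri_c4 t' K' hK'.2) f
  obtain ⟨p, hp, h1, h2, h3, -⟩ := h i v hv
  have hq := tri_path t K p hp h1 h2 h3
  choose q hq using hq
  have hinj : Function.Injective q := fun x y hxy => hp (by rw [hq, hq, hxy])
  have := Fintype.card_le_of_injective q hinj
  simp at this
  omega

private theorem xlcons_card (t l t' l' : ℕ) :
    Fintype.card (TV t l ⊕ TV t' l') = 3 * t + l + (3 * t' + l') := by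
  simp only [Fintype.card_sum, Fintype.card_prod, Fintype.card_fin]; ring

private theorem xlcons_edges (t l t' l' : ℕ) (K : SimpleGraph (Fin l)) (K' : SimpleGraph (Fin l'))
    [DecidableRel K.Adj] [DecidableRel K'.Adj] [DecidableRel (join (tri t K) (tri t' K')).Adj] :
    #(join (tri t K) (tri t' K')).edgeFinset =
      3 * t + #K.edgeFinset + (3 * t' + #K'.edgeFinset) + (3 * t + l) * (3 * t' + l') := by
  classical
  rw [join_edges, tri_edges, tri_edges]
  simp only [Fintype.card_sum, Fintype.card_prod, Fintype.card_fin]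
  ring

/-- Lower bound for the extremal number. -/
theorem le_ex (m : ℕ) (hm : 7 ≤ m) (h3 : ¬ 3 ∣ m) :
    m ^ 2 + 2 * m - 1 ≤ extremalNumber (2 * m) L := by
  classical
  have key : ∀ t l t' l' : ℕ, ∀ (K : SimpleGraph (Fin l)) (K' : SimpleGraph (Fin l'))
      [DecidableRel K.Adj] [DecidableRel K'.Adj],
      ((∀ v, K.degree v ≤ 2) ∧
      ∀ x y z w : Fin l, K.Adj x y → K.Adj y z → K.Adj z w → K.Adj w x → x = z ∨ y = w) →
      ((∀ v, K'.degree v ≤ 2) ∧
      ∀ x y z w : Fin l', K'.Adj x y → K'.Adj y z → K'.Adj z w → K'.Adj w x → x = z ∨ y = w) →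
      l < 4 → 3 * t + l = m → 3 * t' + l' = m → 3 * t + #K.edgeFinset + 1 = m →
      3 * t' + #K'.edgeFinset = m → m ^ 2 + 2 * m - 1 ≤ extremalNumber (2 * m) L := by
    intro t l t' l' K K' _ _ hK hK' hl h1 h2 h4 h5
    have hfree := free_join (t := t) (t' := t') K K' hK hK' hl
    have h := card_edgeFinset_le_extremalNumber hfree
    rw [xlcons_card, xlcons_edges, h1, h2, h5, ← two_mul] at h
    refine le_trans ?_ h
    have : m ^ 2 = m * m := pow_two m
    omega
  have hm3 : m % 3 = 1 ∨ m % 3 = 2 := by omega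
  rcases hm3 with h | h
  · have hb : #(cycleGraph 1).edgeFinset = 0 := by decide +kernel
    refine key (m / 3) 1 (m / 3 - 2) 7 (cycleGraph 1) (cycleGraph 7) ⟨?_, ?_⟩ xlcons_c7 (by omega)
      (by omega) (by omega) (by rw [hb]; omega) (by rw [xlcons_e7]; omega)
    · decide +kernel
    · decide +kernel
  · have hb : #(cycleGraph 2).edgeFinset = 1 := by decide +kernel
    refine key (m / 3) 2 (m / 3 - 1) 5 (cycleGraph 2) (cycleGraph 5) ⟨?_, ?_⟩ xlcons_c5 (by omega)
      (by omega) (by omega) (by rw [hb]; omega) (by rw [xlcons_e5]; omega)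
    · decide +kernel
    · decide +kernel

private theorem xlcons_cardfun (l l' : ℕ) :
    Nat.card (Fin 10 → Fin l ⊕ Fin l') = (l + l') ^ 10 := by
  rw [Nat.card_fun, Nat.card_sum]
  simp

private theorem xlcons_card_eq {α : Type} (i : Fintype α) : @Fintype.card α i = Nat.card α :=
  Nat.card_eq_fintype_card.symm

private theorem xlcons_lab {N : ℕ} (X : SimpleGraph (Fin N)) :
    X.labelledCopyCount L = Nat.card (Copy L X) := by
  unfold labelledCopyCount
  exact xlcons_card_eq _

/-- few copies of `L` in a graph isomorphic to a join of triangles and exceptional parts -/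
theorem few_join {t l t' l' N : ℕ} (K : SimpleGraph (Fin l)) (K' : SimpleGraph (Fin l'))
    [DecidableRel K.Adj] [DecidableRel K'.Adj]
    (hK : (∀ v, K.degree v ≤ 2) ∧
      ∀ x y z w : Fin l, K.Adj x y → K.Adj y z → K.Adj z w → K.Adj w x → x = z ∨ y = w)
    (hK' : (∀ v, K'.degree v ≤ 2) ∧
      ∀ x y z w : Fin l', K'.Adj x y → K'.Adj y z → K'.Adj z w → K'.Adj w x → x = z ∨ y = w)
    (X : SimpleGraph (Fin N)) (e : join (tri t K) (tri t' K') ≃g X) :
    X.copyCount L ≤ (l + l') ^ 10 := by
  classical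
  refine copyCount_le_labelledCopyCount.trans ?_
  rw [xlcons_lab]
  have hex : ∀ f : Copy L X, ∃ h : Fin 10 → Fin l ⊕ Fin l',
      ∀ i, e.symm (f i) = Sum.map Sum.inr Sum.inr (h i) := by
    intro f
    have hg := copy_in_join (tri t K) (tri t' K') (tri_degree_le t K hK.1)
      (tri_degree_le t' K' hK'.1) (tri_c4 t K hK.2) (tri_c4 t' K' hK'.2) (e.symm.toCopy.comp f)
    obtain ⟨-, -, h1, h2⟩ := hg
    have hi : ∀ i, ∃ y : Fin l ⊕ Fin l', e.symm (f i) = Sum.map Sum.inr Sum.inr y := by
      intro i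
      have hgi : (e.symm.toCopy.comp f) i = e.symm (f i) := rfl
      rcases hv : e.symm (f i) with v | v
      · obtain ⟨p, hp, ha, hb, hc, j, hj⟩ := h1 i v (by rw [hgi, hv])
        obtain ⟨x, hx⟩ := tri_path t K p hp ha hb hc j
        exact ⟨Sum.inl x, by rw [← hj, hx]; rfl⟩
      · obtain ⟨p, hp, ha, hb, hc, j, hj⟩ := h2 i v (by rw [hgi, hv])
        obtain ⟨x, hx⟩ := tri_path t' K' p hp ha hb hc j
        exact ⟨Sum.inr x, by rw [← hj, hx]; rfl⟩
    choose h hh using hi
    exact ⟨h, hh⟩
  choose φ hφ using hex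
  have hinj : Function.Injective φ := by
    intro f g hfg
    apply Copy.ext
    intro i
    apply e.symm.injective
    rw [hφ f i, hφ g i, hfg]
  refine (Nat.card_le_card_of_injective φ hinj).trans ?_
  rw [xlcons_cardfun]

/-- transport of a join of triangles and exceptional parts to `Fin n` -/
theorem transport_join {n : ℕ} (t l t' l' : ℕ) (K : SimpleGraph (Fin l)) (K' : SimpleGraph (Fin l'))
    [DecidableRel K.Adj] [DecidableRel K'.Adj] (hn : n = 3 * t + l + (3 * t' + l')) :
    ∃ (X : SimpleGraph (Fin n)) (_ : Fintype X.edgeSet) (_ : join (tri t K) (tri t' K') ≃g X),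
      #X.edgeFinset =
        3 * t + #K.edgeFinset + (3 * t' + #K'.edgeFinset) + (3 * t + l) * (3 * t' + l') := by
  classical
  have hc : Fintype.card (TV t l ⊕ TV t' l') = n := by rw [xlcons_card, hn]
  let e := (join (tri t K) (tri t' K')).overFinIso hc
  refine ⟨(join (tri t K) (tri t' K')).overFin hc, inferInstance, e, ?_⟩
  rw [← Iso.card_edgeFinset_eq e, xlcons_edges]

/-- A graph with `m² + 2m` edges and few copies of `L`. -/
theorem exists_few (m : ℕ) (hm : 7 ≤ m) (h3 : ¬ 3 ∣ m) :
    ∃ (X : SimpleGraph (Fin (2 * m))) (_ : Fintype X.edgeSet),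
      #X.edgeFinset = m ^ 2 + 2 * m ∧ X.copyCount L ≤ 14 ^ 10 := by
  classical
  have key : ∀ t l : ℕ, ∀ (K : SimpleGraph (Fin l)) [DecidableRel K.Adj],
      ((∀ v, K.degree v ≤ 2) ∧
      ∀ x y z w : Fin l, K.Adj x y → K.Adj y z → K.Adj z w → K.Adj w x → x = z ∨ y = w) →
      l ≤ 7 → 3 * t + l = m → 3 * t + #K.edgeFinset = m →
      ∃ (X : SimpleGraph (Fin (2 * m))) (_ : Fintype X.edgeSet),
      #X.edgeFinset = m ^ 2 + 2 * m ∧ X.copyCount L ≤ 14 ^ 10 := by
    intro t l K _ hK hl h1 h2
    obtain ⟨X, hX, e, he⟩ := transport_join (n := 2 * m) t l t l K K (by rw [h1]; ring)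
    refine ⟨X, hX, ?_, (few_join K K hK hK X e).trans
      (Nat.pow_le_pow_left (by omega : l + l ≤ 14) 10)⟩
    rw [he, h1, h2]
    ring
  have hm3 : m % 3 = 1 ∨ m % 3 = 2 := by omega
  rcases hm3 with h | h
  · exact key (m / 3 - 2) 7 (cycleGraph 7) xlcons_c7 (by omega) (by omega)
      (by rw [xlcons_e7]; omega)
  · exact key (m / 3 - 1) 5 (cycleGraph 5) xlcons_c5 (by omega) (by omega)
      (by rw [xlcons_e5]; omega)

end Pool.Agent.Helper37.XL
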