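import Mathlib

/-!
# A connected 3-chromatic graph `L` for which `A(n; L)` is bounded along a sequence: definitions
-/

namespace Pool.Agent.Helper37.XL

open SimpleGraph Finset

/-- The 22 edges of the graph `L`. -/
def edges : List (Fin 10 × Fin 10) :=
  [(0, 1), (0, 2), (0, 5), (0, 6), (0, 7), (0, 8), (0, 9), (1, 7), (1, 9), (2, 3), (2, 5), (2, 7),
   (2, 9), (3, 4), (3, 6), (4, 5), (4, 7), (4, 9), (5, 6), (6, 7), (7, 8), (8, 9)]

/-- The graph `L` on ten vertices. -/
def L : SimpleGraph (Fin 10) where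
  Adj i j := (i, j) ∈ edges ∨ (j, i) ∈ edges
  symm := ⟨fun _ _ h => h.symm⟩
  loopless := ⟨by decide⟩

instance : DecidableRel L.Adj := fun i j =>
  inferInstanceAs (Decidable ((i, j) ∈ edges ∨ (j, i) ∈ edges))

/-- The join of two graphs. -/
def join {V W : Type} (G : SimpleGraph V) (H : SimpleGraph W) : SimpleGraph (V ⊕ W) where
  Adj
    | .inl a, .inl b => G.Adj a b
    | .inr a, .inr b => H.Adj a b
    | .inl _, .inr _ => True
    | .inr _, .inl _ => True
  symm := ⟨by
    rintro (a | a) (b | b) h
    · exact h.symm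
    · trivial
    · trivial
    · exact h.symm⟩
  loopless := ⟨by
    rintro (a | a) h
    · exact G.loopless.irrefl a h
    · exact H.loopless.irrefl a h⟩

/-- `t` disjoint triangles together with a graph `K`. -/
abbrev TV (t l : ℕ) : Type := (Fin t × Fin 3) ⊕ Fin l

/-- `t` disjoint triangles together with a graph `K` on `Fin l`. -/
def tri (t : ℕ) {l : ℕ} (K : SimpleGraph (Fin l)) : SimpleGraph (TV t l) where
  Adj
    | .inl a, .inl b => a.1 = b.1 ∧ a.2 ≠ b.2
    | .inr a, .inr b => K.Adj a b
    | .inl _, .inr _ => False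
    | .inr _, .inl _ => False
  symm := ⟨by
    rintro (a | a) (b | b) h
    · exact ⟨h.1.symm, h.2.symm⟩
    · exact h
    · exact h
    · exact h.symm⟩
  loopless := ⟨by
    rintro (a | a) h
    · exact h.2 rfl
    · exact K.loopless.irrefl a h⟩

end Pool.Agent.Helper37.XL
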