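import Pool.Agent.Helper37.XL.Inf
import Pool.Agent.Helper37.XL.Cons

/-!
# The exact extremal number of `L` and the oscillation of `A(n; L)`
-/

namespace Pool.Agent.Helper37.XL

open SimpleGraph Finset Filter Pool.Agent.Helper49.Copies

/-- maximum degree at most two, no 4-cycle -/
private def Ok {l : ℕ} (K : SimpleGraph (Fin l)) [DecidableRel K.Adj] : Prop :=
  (∀ v, K.degree v ≤ 2) ∧
    ∀ x y z w : Fin l, K.Adj x y → K.Adj y z → K.Adj z w → K.Adj w x → x = z ∨ y = w

private theorem ok7 : Ok (cycleGraph 7) := by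
  constructor <;> decide +kernel
private theorem ok5 : Ok (cycleGraph 5) := by
  constructor <;> decide +kernel
private theorem ok2 : Ok (cycleGraph 2) := by
  constructor <;> decide +kernel
private theorem ok1 : Ok (cycleGraph 1) := by
  constructor <;> decide +kernel
private theorem ok0 : Ok (cycleGraph 0) := by
  constructor <;> decide +kernel
private theorem e7 : #(cycleGraph 7).edgeFinset = 7 := by decide +kernel
private theorem e5 : #(cycleGraph 5).edgeFinset = 5 := by decide +kernel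
private theorem e2 : #(cycleGraph 2).edgeFinset = 1 := by decide +kernel
private theorem e1 : #(cycleGraph 1).edgeFinset = 0 := by decide +kernel
private theorem e0 : #(cycleGraph 0).edgeFinset = 0 := by decide +kernel

private theorem ge_of {n t l t' l' : ℕ} (K : SimpleGraph (Fin l)) (K' : SimpleGraph (Fin l'))
    [DecidableRel K.Adj] [DecidableRel K'.Adj] (hK : Ok K) (hK' : Ok K') (hl : l < 4)
    (hn : n = 3 * t + l + (3 * t' + l')) {m : ℕ}
    (hm : m ≤ 3 * t + #K.edgeFinset + (3 * t' + #K'.edgeFinset) + (3 * t + l) * (3 * t' + l')) :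
    m ≤ extremalNumber n L := by
  classical
  obtain ⟨X, _, e, he⟩ := transport_join t l t' l' K K' hn
  have hfree : L.Free X := (free_congr_right e).1 (free_join K K' hK hK' hl)
  have h := card_edgeFinset_le_extremalNumber hfree
  rw [Fintype.card_fin] at h
  rw [card_edgeFinset_inst _ _ _ _ he] at h
  exact hm.trans h

private theorem few_of {n t l t' l' : ℕ} (K : SimpleGraph (Fin l)) (K' : SimpleGraph (Fin l'))
    [DecidableRel K.Adj] [DecidableRel K'.Adj] (hK : Ok K) (hK' : Ok K') (hl : l + l' ≤ 14)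
    (hn : n = 3 * t + l + (3 * t' + l')) {m : ℕ}
    (hm : m = 3 * t + #K.edgeFinset + (3 * t' + #K'.edgeFinset) + (3 * t + l) * (3 * t' + l')) :
    ∃ (X : SimpleGraph (Fin n)) (_ : Fintype X.edgeSet),
      #X.edgeFinset = m ∧ X.copyCount L ≤ 14 ^ 10 := by
  classical
  obtain ⟨X, i, e, he⟩ := transport_join t l t' l' K K' hn
  exact ⟨X, i, by rw [he, hm], (few_join K K' hK hK' X e).trans (Nat.pow_le_pow_left hl 10)⟩

/-- the exact extremal number -/
theorem ex_eq : ∀ᶠ n : ℕ in atTop, extremalNumber n L +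
    (if n % 6 = 2 ∨ n % 6 = 3 ∨ n % 6 = 4 then 1 else 0) = n ^ 2 / 4 + n := by
  filter_upwards [ex_le, ex_lt, eventually_ge_atTop 24] with n h1 h2 hn
  obtain ⟨s, hs⟩ : ∃ s, s = n / 6 := ⟨_, rfl⟩
  have hs2 : 4 ≤ s := by omega
  obtain ⟨u, rfl⟩ : ∃ u, s = u + 2 := ⟨s - 2, by omega⟩
  have h6 : n % 6 = 0 ∨ n % 6 = 1 ∨ n % 6 = 2 ∨ n % 6 = 3 ∨ n % 6 = 4 ∨ n % 6 = 5 := by omega
  rcases h6 with h | h | h | h | h | h
  · have hn' : n = 6 * (u + 2) := by omega
    have hq : n ^ 2 = 4 * (9 * (u + 2) ^ 2) := by rw [hn']; ring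
    have h3 : n ^ 2 / 4 + n ≤ extremalNumber n L := by
      refine ge_of (t := u + 2) (t' := u + 2) (cycleGraph 0) (cycleGraph 0) ok0 ok0 (by norm_num)
        (by omega) ?_
      rw [e0]
      have : (3 * (u + 2) + 0) * (3 * (u + 2) + 0) = 9 * (u + 2) ^ 2 := by ring
      omega
    rw [if_neg (by omega)]
    omega
  · have hn' : n = 6 * (u + 2) + 1 := by omega
    have hq : n ^ 2 = 4 * (9 * (u + 2) ^ 2 + 3 * (u + 2)) + 1 := by rw [hn']; ring
    have h3 : n ^ 2 / 4 + n ≤ extremalNumber n L := by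
      refine ge_of (t := u + 2) (t' := u) (cycleGraph 0) (cycleGraph 7) ok0 ok7 (by norm_num)
        (by omega) ?_
      rw [e0, e7]
      have : (3 * (u + 2) + 0) * (3 * u + 7) = 9 * (u + 2) ^ 2 + 3 * (u + 2) := by ring
      omega
    rw [if_neg (by omega)]
    omega
  · have hn' : n = 6 * (u + 2) + 2 := by omega
    have hq : n ^ 2 = 4 * (9 * (u + 2) ^ 2 + 6 * (u + 2) + 1) := by rw [hn']; ring
    have h3 : n ^ 2 / 4 + n - 1 ≤ extremalNumber n L := by
      refine ge_of (t := u + 2) (t' := u) (cycleGraph 1) (cycleGraph 7) ok1 ok7 (by norm_num)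
        (by omega) ?_
      rw [e1, e7]
      have : (3 * (u + 2) + 1) * (3 * u + 7) = 9 * (u + 2) ^ 2 + 6 * (u + 2) + 1 := by ring
      omega
    have h4 := h2 (by omega)
    rw [if_pos (by omega)]
    omega
  · have hn' : n = 6 * (u + 2) + 3 := by omega
    have hq : n ^ 2 = 4 * (9 * (u + 2) ^ 2 + 9 * (u + 2) + 2) + 1 := by rw [hn']; ring
    have h3 : n ^ 2 / 4 + n - 1 ≤ extremalNumber n L := by
      refine ge_of (t := u + 2) (t' := u + 1) (cycleGraph 1) (cycleGraph 5) ok1 ok5 (by norm_num)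
        (by omega) ?_
      rw [e1, e5]
      have : (3 * (u + 2) + 1) * (3 * (u + 1) + 5) = 9 * (u + 2) ^ 2 + 9 * (u + 2) + 2 := by ring
      omega
    have h4 := h2 (by omega)
    rw [if_pos (by omega)]
    omega
  · have hn' : n = 6 * (u + 2) + 4 := by omega
    have hq : n ^ 2 = 4 * (9 * (u + 2) ^ 2 + 12 * (u + 2) + 4) := by rw [hn']; ring
    have h3 : n ^ 2 / 4 + n - 1 ≤ extremalNumber n L := by
      refine ge_of (t := u + 2) (t' := u + 1) (cycleGraph 2) (cycleGraph 5) ok2 ok5 (by norm_num)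
        (by omega) ?_
      rw [e2, e5]
      have : (3 * (u + 2) + 2) * (3 * (u + 1) + 5) = 9 * (u + 2) ^ 2 + 12 * (u + 2) + 4 := by ring
      omega
    have h4 := h2 (by omega)
    rw [if_pos (by omega)]
    omega
  · have hn' : n = 6 * (u + 2) + 5 := by omega
    have hq : n ^ 2 = 4 * (9 * (u + 2) ^ 2 + 15 * (u + 2) + 6) + 1 := by rw [hn']; ring
    have h3 : n ^ 2 / 4 + n ≤ extremalNumber n L := by
      refine ge_of (t := u + 3) (t' := u + 1) (cycleGraph 0) (cycleGraph 5) ok0 ok5 (by norm_num)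
        (by omega) ?_
      rw [e0, e5]
      have : (3 * (u + 3) + 0) * (3 * (u + 1) + 5) = 9 * (u + 2) ^ 2 + 15 * (u + 2) + 6 := by ring
      omega
    rw [if_neg (by omega)]
    omega

/-- graphs with `⌊n²/4⌋ + n` edges and few copies of `L` -/
theorem few (n : ℕ) (hn : 24 ≤ n) (h6 : n % 6 = 2 ∨ n % 6 = 3 ∨ n % 6 = 4) :
    ∃ (X : SimpleGraph (Fin n)) (_ : Fintype X.edgeSet),
      #X.edgeFinset = n ^ 2 / 4 + n ∧ X.copyCount L ≤ 14 ^ 10 := by
  obtain ⟨s, hs⟩ : ∃ s, s = n / 6 := ⟨_, rfl⟩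
  have hs2 : 4 ≤ s := by omega
  obtain ⟨u, rfl⟩ : ∃ u, s = u + 2 := ⟨s - 2, by omega⟩
  rcases h6 with h | h | h
  · have hn' : n = 6 * (u + 2) + 2 := by omega
    have hq : n ^ 2 = 4 * (9 * (u + 2) ^ 2 + 6 * (u + 2) + 1) := by rw [hn']; ring
    refine few_of (t := u) (t' := u) (cycleGraph 7) (cycleGraph 7) ok7 ok7 (by norm_num)
      (by omega) ?_
    rw [e7]
    have : (3 * u + 7) * (3 * u + 7) = 9 * (u + 2) ^ 2 + 6 * (u + 2) + 1 := by ring
    omega
  · have hn' : n = 6 * (u + 2) + 3 := by omega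
    have hq : n ^ 2 = 4 * (9 * (u + 2) ^ 2 + 9 * (u + 2) + 2) + 1 := by rw [hn']; ring
    refine few_of (t := u) (t' := u + 1) (cycleGraph 7) (cycleGraph 5) ok7 ok5 (by norm_num)
      (by omega) ?_
    rw [e7, e5]
    have : (3 * u + 7) * (3 * (u + 1) + 5) = 9 * (u + 2) ^ 2 + 9 * (u + 2) + 2 := by ring
    omega
  · have hn' : n = 6 * (u + 2) + 4 := by omega
    have hq : n ^ 2 = 4 * (9 * (u + 2) ^ 2 + 12 * (u + 2) + 4) := by rw [hn']; ring
    refine few_of (t := u + 1) (t' := u + 1) (cycleGraph 5) (cycleGraph 5) ok5 ok5 (by norm_num)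
      (by omega) ?_
    rw [e5]
    have : (3 * (u + 1) + 5) * (3 * (u + 1) + 5) = 9 * (u + 2) ^ 2 + 12 * (u + 2) + 4 := by ring
    omega

/-- `A(n; L)` is bounded for `n` equal to `2, 3, 4` modulo six. -/
theorem bounded : ∀ᶠ n : ℕ in atTop, (n % 6 = 2 ∨ n % 6 = 3 ∨ n % 6 = 4) →
    minCopies n L ≤ 14 ^ 10 := by
  classical
  filter_upwards [ex_eq, eventually_ge_atTop 24] with n h1 hn h6
  rw [if_pos h6] at h1
  obtain ⟨X, i, hX, hc⟩ := few n hn h6
  unfold minCopies
  have hmem : X.copyCount L ∈ {c | ∃ G : SimpleGraph (Fin n),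
      #G.edgeFinset = extremalNumber n L + 1 ∧ G.copyCount L = c} :=
    ⟨X, by rw [h1]; exact card_edgeFinset_inst _ _ _ _ hX, rfl⟩
  exact (Nat.sInf_le hmem).trans hc

/-- `A(n; L)` tends to infinity along `n` equal to `0, 1, 5` modulo six. -/
theorem unbounded (C : ℕ) : ∀ᶠ n : ℕ in atTop, (n % 6 = 0 ∨ n % 6 = 1 ∨ n % 6 = 5) →
    C ≤ minCopies n L := by
  filter_upwards [ex_eq, many_copies C] with n h1 h2 h6
  rw [if_neg (by omega), add_zero] at h1
  exact h2 h1.ge

end Pool.Agent.Helper37.XL
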