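import Pool.Agent.Helper37.XL.Upper
import Pool.Agent.Helper20.Tur.Inc
import Pool.Agent.Helper49.CopiesCore

/-!
# If the bound `⌊n²/4⌋ + n` is attained then there are many copies one edge above
-/

namespace Pool.Agent.Helper37.XL

open SimpleGraph Finset Filter Pool.Agent.Helper49.Copies

theorem L_colorable : L.Colorable (2 + 1) := by
  have h := L_chromatic
  have h1 : L.Colorable 3 := by
    rw [← chromaticNumber_le_iff_colorable, h]
    rfl
  exact h1

theorem L_not_colorable : ¬ L.Colorable 2 := by
  intro h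
  rw [← chromaticNumber_le_iff_colorable, L_chromatic] at h
  norm_num at h

theorem L_ne_bot : L ≠ ⊥ := by
  intro h
  have h1 : L.Adj 0 1 := by decide
  rw [h] at h1
  exact h1

/-- One edge above `⌊n²/4⌋ + n` there are many copies of `L`. -/
theorem many_copies (C : ℕ) : ∀ᶠ n : ℕ in atTop, n ^ 2 / 4 + n ≤ extremalNumber n L →
    C ≤ minCopies n L := by
  classical
  obtain ⟨η, hη, hbip⟩ := bipartition_core
  filter_upwards [hbip (C * 10), Pool.Agent.Helper20.Tur.minDegree_of_core L 2 (by norm_num) L_colorable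
    L_not_colorable η hη (C * 10), eventually_ge_atTop 10] with n hn hmin hn' hex
  unfold minCopies
  have hne : {c | ∃ G : SimpleGraph (Fin n),
      #G.edgeFinset = extremalNumber n L + 1 ∧ G.copyCount L = c}.Nonempty := by
    obtain ⟨G, _, hG⟩ := exists_graph_card_eq L L_ne_bot n (by simpa using hn')
    exact ⟨_, G, card_edgeFinset_inst _ _ _ _ hG, rfl⟩
  apply le_csInf hne
  rintro c ⟨G, hG, rfl⟩
  by_contra hcon
  push Not at hcon
  obtain ⟨D, hD, hD'⟩ := exists_core G L
  have hDc : #D ≤ C * 10 := by
    refine hD.trans ?_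
    simp only [Fintype.card_fin]
    exact Nat.mul_le_mul_right _ hcon.le
  have hdeg := hmin G hG D hDc hD'
  obtain ⟨A, hA, hB⟩ := hn G hdeg D hDc hD'
  have h1 := card_edges_le_of_bipartition G A hA hB
  have h2 := xlup_prod_le (xlup_card A)
  omega

end Pool.Agent.Helper37.XL
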