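import Pool.Agent.Helper37.XL.Defs

/-!
# Bipartitions of the vertices of `L` with all inner degrees at most two
-/

namespace Pool.Agent.Helper37.XL

open SimpleGraph Finset

/-- neighbours in `L` -/
private def xlpNb (v : Fin 10) : List (Fin 10) :=
  (List.finRange 10).filter fun w => decide (L.Adj v w)

/-- candidates for a 4-cycle -/
private def xlpC4 : List (Fin 4 → Fin 10) := [![1, 7, 8, 9], ![0, 7, 4, 9], ![2, 3, 6, 5]]

/-- candidates for paths with four vertices -/
private def xlpP4 : List (Fin 4 → Fin 10) :=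
  [![1, 0, 2, 3], ![0, 2, 3, 4], ![5, 6, 7, 8], ![6, 7, 8, 9], ![8, 0, 2, 3], ![5, 6, 7, 1],
    ![6, 7, 1, 9]]

private def xlpCheck (c : Fin 10 → Bool) : Bool :=
  ((List.finRange 10).any fun v => decide (2 < ((xlpNb v).filter fun w => c w == c v).length)) ||
  ((xlpC4.any fun q => c (q 0) == c (q 1) && (c (q 1) == c (q 2) && c (q 2) == c (q 3))) ||
  (((List.finRange 10).any fun v => c v) && (((List.finRange 10).any fun v => !(c v)) &&
    ((List.finRange 10).all fun v => xlpP4.any fun q =>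
      (List.finRange 4).all (fun i => c (q i) == c v) && (List.finRange 4).any fun i => q i == v))))

private theorem xlp_check : ∀ n < 1024, xlpCheck (fun v => Nat.testBit n v) = true := by
  decide +kernel

private theorem xlp_c4 : ∀ q ∈ xlpC4, q 0 ≠ q 2 ∧ q 1 ≠ q 3 ∧ L.Adj (q 0) (q 1) ∧ L.Adj (q 1) (q 2) ∧
    L.Adj (q 2) (q 3) ∧ L.Adj (q 3) (q 0) := by
  intro q hq
  simp only [xlpC4, List.mem_cons, List.not_mem_nil, or_false] at hq
  rcases hq with rfl | rfl | rfl <;> decide

private theorem xlp_p4 : ∀ q ∈ xlpP4, Function.Injective q ∧ L.Adj (q 0) (q 1) ∧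
    L.Adj (q 1) (q 2) ∧ L.Adj (q 2) (q 3) := by
  intro q hq
  simp only [xlpP4, List.mem_cons, List.not_mem_nil, or_false] at hq
  rcases hq with rfl | rfl | rfl | rfl | rfl | rfl | rfl <;>
    exact ⟨by decide, by decide, by decide, by decide⟩

private theorem xlp_all (c : Fin 10 → Bool) : xlpCheck c = true := by
  have h1 : c = fun v : Fin 10 => Nat.testBit (Nat.ofBits c) v := by
    funext v
    rw [Nat.testBit_ofBits_lt c v v.2]
  rw [h1]
  apply xlp_check
  exact Nat.ofBits_lt_two_pow c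

/-- If every vertex of `L` has at most two neighbours of its own colour, then there is a
monochromatic 4-cycle, or both colours occur and every vertex lies on a monochromatic path with
four vertices. -/
theorem partition (c : Fin 10 → Bool)
    (h : ∀ v, #{w | L.Adj v w ∧ c w = c v} ≤ 2) :
    (∃ x y z w : Fin 10, x ≠ z ∧ y ≠ w ∧ L.Adj x y ∧ L.Adj y z ∧ L.Adj z w ∧ L.Adj w x ∧
      c x = c y ∧ c y = c z ∧ c z = c w) ∨
    ((∃ v, c v = true) ∧ (∃ v, c v = false) ∧
      ∀ v, ∃ p : Fin 4 → Fin 10, Function.Injective p ∧ L.Adj (p 0) (p 1) ∧ L.Adj (p 1) (p 2) ∧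
        L.Adj (p 2) (p 3) ∧ (∀ i, c (p i) = c v) ∧ ∃ i, p i = v) := by
  have hc := xlp_all c
  unfold xlpCheck at hc
  rw [Bool.or_eq_true, Bool.or_eq_true] at hc
  rcases hc with hc | hc | hc
  · exfalso
    rw [List.any_eq_true] at hc
    obtain ⟨v, -, hv⟩ := hc
    have hv := of_decide_eq_true hv
    have h1 := h v
    have h2 : #{w | L.Adj v w ∧ c w = c v} = ((xlpNb v).filter fun w => c w == c v).length := by
      rw [← List.toFinset_card_of_nodup]
      · congr 1
        ext w
        simp [xlpNb, and_comm]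
      · exact ((List.nodup_finRange 10).filter _).filter _
    omega
  · left
    rw [List.any_eq_true] at hc
    obtain ⟨q, hq, hqc⟩ := hc
    simp only [Bool.and_eq_true, beq_iff_eq] at hqc
    obtain ⟨h1, h2, h3, h4, h5, h6⟩ := xlp_c4 q hq
    exact ⟨q 0, q 1, q 2, q 3, h1, h2, h3, h4, h5, h6, hqc.1, hqc.2.1, hqc.2.2⟩
  · right
    simp only [Bool.and_eq_true, List.any_eq_true, List.all_eq_true, List.mem_finRange,
      forall_const, beq_iff_eq, Bool.not_eq_true', true_and] at hc
    obtain ⟨hc1, hc2, hc3⟩ := hc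
    refine ⟨hc1, hc2, fun v => ?_⟩
    obtain ⟨q, hq, h1, h2⟩ := hc3 v
    obtain ⟨h3, h4, h5, h6⟩ := xlp_p4 q hq
    exact ⟨q, h3, h4, h5, h6, h1, h2⟩

end Pool.Agent.Helper37.XL
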