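import Pool.Agent.Helper37.XL.Basic
import Pool.Agent.Helper20.Tur.Struct2

/-!
# Dense `L`-free graphs with large minimum degree are almost bipartite
-/

namespace Pool.Agent.Helper37.XL

open SimpleGraph Finset Filter

/-- A star inside a class with many common neighbours outside `D` gives a copy of `L` which is
not inside `D`. -/
private theorem xlstr_star {V : Type} [DecidableEq V] (G : SimpleGraph V) (D : Finset V)
    (hD : ∀ (f : Copy L G) (w : Fin 10), f w ∈ D) (a : Fin 5 → V) (ha : Function.Injective a)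
    (h1 : G.Adj (a 0) (a 1)) (h2 : G.Adj (a 0) (a 2)) (h3 : G.Adj (a 0) (a 3)) (B : Finset V)
    (hB : 5 ≤ #B) (hBD : ∀ b ∈ B, b ∉ D) (hadj : ∀ i, ∀ b ∈ B, G.Adj (a i) b) : False := by
  classical
  let G' : SimpleGraph V :=
    { Adj := fun x y => G.Adj x y ∧ (x ∈ univ.image a ∪ B ∧ y ∈ univ.image a ∪ B)
      symm := ⟨fun x y h => ⟨h.1.symm, h.2.2, h.2.1⟩⟩
      loopless := ⟨fun x h => h.1.ne rfl⟩ }
  have ha' : ∀ i, a i ∈ univ.image a ∪ B := fun i =>
    mem_union_left _ (mem_image_of_mem _ (mem_univ _))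
  have hB' : ∀ b ∈ B, b ∈ univ.image a ∪ B := fun b hb => mem_union_right _ hb
  have hL : L ⊑ G' := star_copy G' a ha ⟨h1, ha' _, ha' _⟩ ⟨h2, ha' _, ha' _⟩ ⟨h3, ha' _, ha' _⟩ B hB
    (fun i b hb => ⟨hadj i b hb, ha' i, hB' b hb⟩)
  obtain ⟨f⟩ := hL
  have hle : G' ≤ G := fun x y h => h.1
  have hnb : ∀ w : Fin 10, ∃ w', L.Adj w w' := by decide
  have hmem : ∀ w, f w ∈ univ.image a := by
    intro w
    obtain ⟨w', hw'⟩ := hnb w
    have h4 : G'.Adj (f w) (f w') := f.toHom.map_rel' hw'
    have h5 := hD ((Copy.ofLE _ _ hle).comp f) w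
    have h6 : f w ∈ D := h5
    rcases mem_union.1 h4.2.1 with h7 | h7
    · exact h7
    · exact absurd h6 (hBD _ h7)
  have hcard : #(univ.image f) ≤ #(univ.image a) := card_le_card (by
    intro x hx
    rw [mem_image] at hx
    obtain ⟨w, -, rfl⟩ := hx
    exact hmem w)
  have hfi : Function.Injective (f : Fin 10 → V) := f.injective
  rw [card_image_of_injective _ hfi, card_image_of_injective _ ha] at hcard
  simp at hcard

/-- A large graph with minimum degree almost `n/2` all of whose copies of `L` lie in a bounded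
set has a bipartition with all inner degrees at most two. -/
theorem bipartition_core : ∃ η : ℝ, 0 < η ∧ ∀ d : ℕ, ∀ᶠ n : ℕ in atTop,
    ∀ (G : SimpleGraph (Fin n)) [DecidableRel G.Adj],
    (∀ x, (1 - 1 / ((2 : ℕ) : ℝ) - η) * n ≤ G.degree x) → ∀ D : Finset (Fin n), #D ≤ d →
    (∀ (f : Copy L G) (w : Fin 10), f w ∈ D) →
    ∃ A : Finset (Fin n), (∀ v ∈ A, #{w ∈ A | G.Adj v w} ≤ 2) ∧
      (∀ v ∈ univ \ A, #{w ∈ univ \ A | G.Adj v w} ≤ 2) := by
  classical
  obtain ⟨η, hη, hstr⟩ := Pool.Agent.Helper20.Tur.structure_lemma L 2 le_rfl 0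
    (![0, 1, 1, 0, 1, 0, 1, 0, 1, 0]) (by decide) ⟨1, by decide⟩ (1 / 100) (by norm_num)
  refine ⟨η, hη, fun d => ?_⟩
  filter_upwards [hstr d, eventually_ge_atTop (100 * (d + 10))] with n hn hn' G _ hdeg D hD hcore
  obtain ⟨j, hmiss, -, hsize⟩ := hn G hdeg D hD hcore
  have hnR : (100 * ((d : ℝ) + 10)) ≤ n := by exact_mod_cast hn'
  have hd0 : (0 : ℝ) ≤ d := Nat.cast_nonneg _
  have key : ∀ v, #{y | j y = j v ∧ G.Adj v y} ≤ 2 := by
    intro v
    by_contra hcon
    push Not at hcon
    obtain ⟨U, hU, hUc⟩ := Finset.exists_subset_card_eq (n := 3) hcon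
    obtain ⟨x, y, z, hxy, hxz, hyz, rfl⟩ := card_eq_three.1 hUc
    have hx := hU (by simp : x ∈ ({x, y, z} : Finset (Fin n)))
    have hy := hU (by simp : y ∈ ({x, y, z} : Finset (Fin n)))
    have hz := hU (by simp : z ∈ ({x, y, z} : Finset (Fin n)))
    simp only [mem_filter, mem_univ, true_and] at hx hy hz
    -- a fifth vertex in the class
    have hcl := hsize (j v)
    obtain ⟨w, hw, hwn⟩ : ∃ w ∈ ({y | j y = j v} : Finset (Fin n)), w ∉ ({v, x, y, z} : Finset (Fin n)) := by
      by_contra hcon2
      push Not at hcon2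
      have h1 := card_le_card (show ({y | j y = j v} : Finset (Fin n)) ⊆ {v, x, y, z} from hcon2)
      have h2 : #({v, x, y, z} : Finset (Fin n)) ≤ 4 := card_le_four
      have h3 : (#({y | j y = j v} : Finset (Fin n)) : ℝ) ≤ 4 := by exact_mod_cast h1.trans h2
      norm_num at hcl
      linarith
    simp only [mem_filter, mem_univ, true_and] at hw
    simp only [mem_insert, mem_singleton, not_or] at hwn
    obtain ⟨l, hl⟩ : ∃ l : Fin 2, l ≠ j v := exists_ne _
    let a : Fin 5 → Fin n := ![v, x, y, z, w]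
    have hja : ∀ i, j (a i) = j v := by
      intro i
      fin_cases i
      · rfl
      · exact hx.1
      · exact hy.1
      · exact hz.1
      · exact hw
    have hainj : Function.Injective a := by
      have e1 : v ≠ x := hx.2.ne
      have e2 : v ≠ y := hy.2.ne
      have e3 : v ≠ z := hz.2.ne
      obtain ⟨e4, e5, e6, e7⟩ := hwn
      intro i i' hii
      fin_cases i <;> fin_cases i' <;> first
        | rfl
        | exact absurd hii e1
        | exact absurd hii.symm e1
        | exact absurd hii e2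
        | exact absurd hii.symm e2
        | exact absurd hii e3
        | exact absurd hii.symm e3
        | exact absurd hii e4
        | exact absurd hii.symm e4
        | exact absurd hii e5
        | exact absurd hii.symm e5
        | exact absurd hii e6
        | exact absurd hii.symm e6
        | exact absurd hii e7
        | exact absurd hii.symm e7
        | exact absurd hii hxy
        | exact absurd hii.symm hxy
        | exact absurd hii hxz
        | exact absurd hii.symm hxz
        | exact absurd hii hyz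
        | exact absurd hii.symm hyz
    set B : Finset (Fin n) := {b | j b = l ∧ b ∉ D ∧ ∀ i, G.Adj (a i) b} with hB
    have hBc : 5 ≤ #B := by
      set M : Finset (Fin n) := univ.biUnion
        (fun i : Fin 5 => ({b | j b = l ∧ ¬ G.Adj (a i) b} : Finset (Fin n))) with hM
      have hsub : ({b | j b = l} : Finset (Fin n)) ⊆ B ∪ (D ∪ M) := by
        intro b hb
        simp only [mem_filter, mem_univ, true_and] at hb
        simp only [hB, hM, mem_union, mem_filter, mem_univ, true_and, mem_biUnion]
        by_cases h1 : b ∈ D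
        · exact Or.inr (Or.inl h1)
        · by_cases h2 : ∀ i, G.Adj (a i) b
          · exact Or.inl ⟨hb, h1, h2⟩
          · push Not at h2
            obtain ⟨i, hi⟩ := h2
            exact Or.inr (Or.inr ⟨i, hb, hi⟩)
      have h1 := (card_le_card hsub).trans ((card_union_le _ _).trans
        (Nat.add_le_add_left (card_union_le _ _) _))
      have h2 : (#M : ℝ) ≤ 5 * (1 / 100 * n) := by
        have h3 : #M ≤ ∑ i : Fin 5, #({b | j b = l ∧ ¬ G.Adj (a i) b} : Finset (Fin n)) :=
          card_biUnion_le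
        have h4 : ∑ i : Fin 5, (#({b | j b = l ∧ ¬ G.Adj (a i) b} : Finset (Fin n)) : ℝ) ≤
            ∑ _i : Fin 5, (1 / 100 * (n : ℝ)) := by
          apply Finset.sum_le_sum
          intro i _
          exact hmiss (a i) l (by rw [hja i]; exact hl)
        have h5 : (#M : ℝ) ≤
            ∑ i : Fin 5, (#({b | j b = l ∧ ¬ G.Adj (a i) b} : Finset (Fin n)) : ℝ) := by
          exact_mod_cast h3
        refine h5.trans (h4.trans ?_)
        simp only [sum_const, card_univ, Fintype.card_fin, nsmul_eq_mul]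
        norm_num
      have h6 := hsize l
      have h7 : (#({b | j b = l} : Finset (Fin n)) : ℝ) ≤ #B + (#D + #M) := by
        exact_mod_cast h1
      have h8 : (#D : ℝ) ≤ d := by exact_mod_cast hD
      have h9 : (5 : ℝ) ≤ #B := by
        norm_num at h6 h2
        linarith
      exact_mod_cast h9
    refine xlstr_star G D hcore a hainj hx.2 hy.2 hz.2 B hBc ?_ ?_
    · intro b hb
      rw [hB, mem_filter] at hb
      exact hb.2.2.1
    · intro i b hb
      rw [hB, mem_filter] at hb
      exact hb.2.2.2 i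
  refine ⟨({y | j y = 0} : Finset (Fin n)), ?_, ?_⟩
  · intro v hv
    simp only [mem_filter, mem_univ, true_and] at hv
    refine (card_le_card ?_).trans (key v)
    intro w hw
    simp only [mem_filter, mem_univ, true_and] at hw ⊢
    exact ⟨hw.1.trans hv.symm, hw.2⟩
  · intro v hv
    simp only [Finset.mem_sdiff, mem_filter, mem_univ, true_and] at hv
    refine (card_le_card ?_).trans (key v)
    intro w hw
    simp only [Finset.mem_sdiff, mem_filter, mem_univ, true_and] at hw ⊢
    refine ⟨?_, hw.2⟩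
    have h1 : ∀ p q : Fin 2, p ≠ 0 → q ≠ 0 → q = p := by decide
    exact h1 _ _ hv hw.1

/-- A large `L`-free graph with minimum degree at least `n/2` has a bipartition with all inner
degrees at most two. -/
theorem exists_bipartition : ∃ N₀ : ℕ, ∀ n ≥ N₀, ∀ (G : SimpleGraph (Fin n))
    [DecidableRel G.Adj], L.Free G → (∀ v, n ≤ 2 * G.degree v) →
    ∃ A : Finset (Fin n), (∀ v ∈ A, #{w ∈ A | G.Adj v w} ≤ 2) ∧
      (∀ v ∈ univ \ A, #{w ∈ univ \ A | G.Adj v w} ≤ 2) := by
  obtain ⟨η, hη, h⟩ := bipartition_core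
  obtain ⟨N₀, hN₀⟩ := eventually_atTop.1 (h 0)
  refine ⟨N₀, fun n hn G _ hfree hdeg => ?_⟩
  refine hN₀ n hn G ?_ ∅ (by simp) (fun f => absurd ⟨f⟩ hfree)
  intro v
  have h1 : (n : ℝ) ≤ 2 * G.degree v := by exact_mod_cast hdeg v
  have h2 : (0 : ℝ) ≤ η * n := by positivity
  push_cast
  linarith

end Pool.Agent.Helper37.XL
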