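import Mathlib

/-!
# 2-regular graphs on a set whose size is not divisible by three
-/

namespace Pool.Agent.Helper37.XL

open SimpleGraph Finset

private theorem xlreg_other {V : Type} [DecidableEq V] {N : Finset V} (h : #N = 2) {v : V}
    (hv : v ∈ N) : ∃ a ∈ N, a ≠ v := by
  obtain ⟨x, y, hxy, rfl⟩ := Finset.card_eq_two.1 h
  simp only [Finset.mem_insert, Finset.mem_singleton] at hv
  rcases hv with rfl | rfl
  · exact ⟨y, by simp, hxy.symm⟩
  · exact ⟨x, by simp, hxy⟩

private theorem xlreg_eq {V : Type} [DecidableEq V] {N : Finset V} (h : #N = 2) {v w : V}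
    (hv : v ∈ N) (hw : w ∈ N) (hvw : v ≠ w) : N = {v, w} := by
  symm
  apply Finset.eq_of_subset_of_card_le
  · intro x hx
    simp only [Finset.mem_insert, Finset.mem_singleton] at hx
    rcases hx with rfl | rfl <;> assumption
  · rw [h, Finset.card_pair hvw]

private theorem xlreg_inj4 {V : Type} {x y z w : V} (h1 : x ≠ y) (h2 : x ≠ z) (h3 : x ≠ w)
    (h4 : y ≠ z) (h5 : y ≠ w) (h6 : z ≠ w) : Function.Injective ![x, y, z, w] := by
  intro i j hij
  fin_cases i <;> fin_cases j <;> first
    | rfl
    | (exact absurd hij (by assumption))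
    | (exact absurd hij.symm (by assumption))

private theorem xlreg_inj5 {V : Type} {x y z w u : V} (h1 : x ≠ y) (h2 : x ≠ z) (h3 : x ≠ w)
    (h4 : y ≠ z) (h5 : y ≠ w) (h6 : z ≠ w) (h7 : x ≠ u) (h8 : y ≠ u) (h9 : z ≠ u) (h10 : w ≠ u) :
    Function.Injective ![x, y, z, w, u] := by
  intro i j hij
  fin_cases i <;> fin_cases j <;> first
    | rfl
    | (exact absurd hij (by assumption))
    | (exact absurd hij.symm (by assumption))

/-- If every vertex of `A` has exactly two neighbours in `A` and `3 ∤ #A`, then `G[A]` has a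
4-cycle or a path with five vertices (otherwise the closed neighbourhoods partition `A` into
triangles). -/
theorem c4_or_p5 {V : Type} [DecidableEq V] (G : SimpleGraph V) [DecidableRel G.Adj]
    (A : Finset V) (hA : ∀ v ∈ A, #{w ∈ A | G.Adj v w} = 2) (h3 : ¬ 3 ∣ #A) :
    (∃ p : Fin 4 → V, Function.Injective p ∧ (∀ i, p i ∈ A) ∧ G.Adj (p 0) (p 1) ∧
      G.Adj (p 1) (p 2) ∧ G.Adj (p 2) (p 3) ∧ G.Adj (p 3) (p 0)) ∨
    (∃ p : Fin 5 → V, Function.Injective p ∧ (∀ i, p i ∈ A) ∧
      ∀ i : Fin 4, G.Adj (p i.castSucc) (p i.succ)) := by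
  by_contra hcon
  rw [not_or] at hcon
  obtain ⟨hc4, hp5⟩ := hcon
  -- neighbours of a vertex are adjacent
  have key : ∀ v ∈ A, ∀ a ∈ A, ∀ b ∈ A, G.Adj v a → G.Adj v b → a ≠ b → G.Adj a b := by
    intro v hv a ha b hb hva hvb hab
    by_contra hn
    obtain ⟨a', ha', hav'⟩ := xlreg_other (hA a ha) (v := v) (by simp [hv, hva.symm])
    obtain ⟨b', hb', hbv'⟩ := xlreg_other (hA b hb) (v := v) (by simp [hv, hvb.symm])
    simp only [Finset.mem_filter] at ha' hb'
    have n1 : a' ≠ b := fun h => hn (h ▸ ha'.2)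
    have n2 : b' ≠ a := fun h => hn (h ▸ hb'.2.symm)
    have n3 : a' ≠ a := ha'.2.ne'
    have n4 : b' ≠ b := hb'.2.ne'
    have n5 : v ≠ a := hva.ne
    have n6 : v ≠ b := hvb.ne
    by_cases hab' : a' = b'
    · subst hab'
      apply hc4
      refine ⟨![v, a, a', b], xlreg_inj4 n5 hav'.symm n6 n3.symm hab n1, ?_, hva, ha'.2,
        hb'.2.symm, hvb.symm⟩
      intro i
      fin_cases i
      · exact hv
      · exact ha
      · exact ha'.1
      · exact hb
    · apply hp5
      refine ⟨![a', a, v, b, b'], xlreg_inj5 n3 hav' n1 n5.symm hab n6 hab' n2.symm hbv'.symm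
        n4.symm, ?_, ?_⟩
      · intro i
        fin_cases i
        · exact ha'.1
        · exact ha
        · exact hv
        · exact hb
        · exact hb'.1
      · intro i
        fin_cases i
        · exact ha'.2.symm
        · exact hva.symm
        · exact hvb
        · exact hb'.2
  let N : V → Finset V := fun v => {w ∈ A | G.Adj v w}
  let T : V → Finset V := fun v => insert v (N v)
  have hTcard : ∀ v ∈ A, #(T v) = 3 := by
    intro v hv
    have : v ∉ N v := by simp [N]
    simp only [T]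
    rw [Finset.card_insert_of_notMem this]
    have := hA v hv
    simp only [N]
    omega
  have hTsub : ∀ v ∈ A, T v ⊆ A := by
    intro v hv w hw
    simp only [T, N, Finset.mem_insert, Finset.mem_filter] at hw
    rcases hw with rfl | hw
    · exact hv
    · exact hw.1
  have hTeq : ∀ v ∈ A, ∀ w ∈ T v, T w = T v := by
    intro v hv w hw
    by_cases hwv : w = v
    · rw [hwv]
    have hwN : w ∈ N v := by
      simp only [T, Finset.mem_insert] at hw
      exact hw.resolve_left hwv
    have hwN' := hwN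
    simp only [N, Finset.mem_filter] at hwN'
    obtain ⟨b, hb, hbw⟩ := xlreg_other (hA v hv) (v := w) hwN
    have hb' := hb
    simp only [Finset.mem_filter] at hb'
    have hNv : N v = {w, b} := xlreg_eq (hA v hv) hwN hb (Ne.symm hbw)
    have hadj : G.Adj w b := key v hv w hwN'.1 b hb'.1 hwN'.2 hb'.2 (Ne.symm hbw)
    have hNw : N w = {v, b} := xlreg_eq (hA w hwN'.1) (by simp [hv, hwN'.2.symm])
      (by simp [hb'.1, hadj]) hb'.2.ne
    simp only [T]
    rw [hNv, hNw]
    exact Finset.insert_comm _ _ _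
  apply h3
  have hfib : #A = ∑ t ∈ A.image T, #{v ∈ A | T v = t} :=
    Finset.card_eq_sum_card_fiberwise (fun v hv => Finset.mem_image_of_mem T hv)
  have h3f : ∀ t ∈ A.image T, #{v ∈ A | T v = t} = 3 := by
    intro t ht
    obtain ⟨v0, hv0, rfl⟩ := Finset.mem_image.1 ht
    have : {v ∈ A | T v = T v0} = T v0 := by
      ext w
      simp only [Finset.mem_filter]
      constructor
      · rintro ⟨hw, h⟩
        rw [← h]
        simp [T]
      · intro hw
        exact ⟨hTsub v0 hv0 hw, hTeq v0 hv0 w hw⟩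
    rw [this, hTcard v0 hv0]
  rw [hfib, Finset.sum_congr rfl h3f, Finset.sum_const, smul_eq_mul]
  exact Dvd.intro_left _ rfl

end Pool.Agent.Helper37.XL
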