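import Pool.Agent.Helper37.XL.Structure
import Pool.Agent.Helper37.XL.TwoRegular
import Pool.Agent.Helper49.CopiesBound

/-!
# The extremal number of `L`: upper bounds
-/

namespace Pool.Agent.Helper37.XL

open SimpleGraph Finset Filter

theorem xlup_card {n : ℕ} (A : Finset (Fin n)) : #A + #(univ \ A) = n := by
  have h := Finset.card_sdiff_add_card_eq_card (subset_univ A)
  rw [Finset.card_univ, Fintype.card_fin] at h
  omega

private theorem xlup_dsum_le {V : Type} (G : SimpleGraph V) [DecidableRel G.Adj]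
    (A : Finset V) (hA : ∀ v ∈ A, #{w ∈ A | G.Adj v w} ≤ 2) :
    Pool.Agent.Helper49.Copies.dsum G A A ≤ 2 * #A := by
  unfold Pool.Agent.Helper49.Copies.dsum
  have h := Finset.sum_le_card_nsmul A (fun v => #{w ∈ A | G.Adj v w}) 2 hA
  rw [smul_eq_mul] at h
  omega

/-- Counting edges with a bipartition of inner degrees at most two. -/
theorem card_edges_le_of_bipartition {n : ℕ} (G : SimpleGraph (Fin n)) [DecidableRel G.Adj]
    (A : Finset (Fin n)) (hA : ∀ v ∈ A, #{w ∈ A | G.Adj v w} ≤ 2)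
    (hB : ∀ v ∈ univ \ A, #{w ∈ univ \ A | G.Adj v w} ≤ 2) :
    #G.edgeFinset ≤ #A * #(univ \ A) + n := by
  have h1 := Pool.Agent.Helper49.Copies.two_mul_card_edges_le G A
  have h2 := xlup_dsum_le G A hA
  have h3 := xlup_dsum_le G (univ \ A) hB
  have h4 := Pool.Agent.Helper49.Copies.dsum_le G (univ \ A) A
  have h5 := xlup_card A
  rw [mul_comm] at h4
  omega

theorem xlup_prod_le {a b n : ℕ} (h : a + b = n) : a * b ≤ n ^ 2 / 4 := by
  rw [Nat.le_div_iff_mul_le (by norm_num)]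
  subst h
  zify
  nlinarith [sq_nonneg ((a : ℤ) - b)]

/-- The equality case. -/
theorem eq_case {n : ℕ} (G : SimpleGraph (Fin n)) [DecidableRel G.Adj]
    (A : Finset (Fin n)) (hA : ∀ v ∈ A, #{w ∈ A | G.Adj v w} ≤ 2)
    (hB : ∀ v ∈ univ \ A, #{w ∈ univ \ A | G.Adj v w} ≤ 2)
    (he : n ^ 2 / 4 + n ≤ #G.edgeFinset) :
    #A * #(univ \ A) = n ^ 2 / 4 ∧ (∀ v ∈ A, #{w ∈ A | G.Adj v w} = 2) ∧
      (∀ v ∈ univ \ A, #{w ∈ univ \ A | G.Adj v w} = 2) ∧
      (∀ v ∈ A, ∀ w ∈ univ \ A, G.Adj v w) := by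
  have h1 := Pool.Agent.Helper49.Copies.two_mul_card_edges_le G A
  have h2 := xlup_dsum_le G A hA
  have h3 := xlup_dsum_le G (univ \ A) hB
  have h4 := Pool.Agent.Helper49.Copies.dsum_le G (univ \ A) A
  have h5 := xlup_card A
  have hprod : #(univ \ A) * #A ≤ n ^ 2 / 4 := xlup_prod_le (by omega)
  have e1 : Pool.Agent.Helper49.Copies.dsum G A A = 2 * #A := by omega
  have e2 : Pool.Agent.Helper49.Copies.dsum G (univ \ A) (univ \ A) = 2 * #(univ \ A) := by omega
  have e3 : Pool.Agent.Helper49.Copies.dsum G (univ \ A) A = #(univ \ A) * #A := by omega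
  have e4 : #(univ \ A) * #A = n ^ 2 / 4 := by omega
  have hsum : ∀ (C D : Finset (Fin n)) (k : ℕ), (∀ v ∈ C, #{w ∈ D | G.Adj v w} ≤ k) →
      Pool.Agent.Helper49.Copies.dsum G C D = k * #C → ∀ v ∈ C, #{w ∈ D | G.Adj v w} = k := by
    intro C D k hle heq
    have h6 : ∑ v ∈ C, #{w ∈ D | G.Adj v w} = ∑ _v ∈ C, k := by
      rw [Finset.sum_const, smul_eq_mul, mul_comm]
      exact heq
    exact (Finset.sum_eq_sum_iff_of_le hle).1 h6
  refine ⟨by rw [mul_comm]; exact e4, hsum A A 2 hA e1, hsum _ _ 2 hB e2, ?_⟩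
  have h7 := hsum (univ \ A) A (#A) (fun v _ => Finset.card_filter_le _ _)
    (by rw [e3, mul_comm])
  intro v hv w hw
  have h8 := h7 w hw
  have h9 : {x ∈ A | G.Adj w x} = A :=
    Finset.eq_of_subset_of_card_le (Finset.filter_subset _ _) (le_of_eq h8.symm)
  have h10 : v ∈ {x ∈ A | G.Adj w x} := by rw [h9]; exact hv
  rw [mem_filter] at h10
  exact h10.2.symm

private theorem xlup_c4 {V : Type} [DecidableEq V] (G : SimpleGraph V) [DecidableRel G.Adj]
    (A B : Finset V) (hA : 7 ≤ #A) (hB : 7 ≤ #B)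
    (hB2 : ∀ v ∈ B, #{w ∈ B | G.Adj v w} = 2)
    (hAB : ∀ v ∈ A, ∀ w ∈ B, G.Adj v w)
    (p : Fin 4 → V) (hp : Function.Injective p) (hpA : ∀ i, p i ∈ A) (h1 : G.Adj (p 0) (p 1))
    (h2 : G.Adj (p 1) (p 2)) (h3 : G.Adj (p 2) (p 3)) (h4 : G.Adj (p 3) (p 0)) : L ⊑ G := by
  -- two more elements of `A`
  have hc : #(univ.image p) ≤ 4 := (Finset.card_image_le).trans (by simp)
  obtain ⟨x, hx, hxp⟩ : ∃ x ∈ A, x ∉ univ.image p := by
    by_contra hcon
    push Not at hcon
    have := Finset.card_le_card (show A ⊆ univ.image p from hcon)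
    omega
  have hc2 : #(insert x (univ.image p)) ≤ 5 := (Finset.card_insert_le _ _).trans (by omega)
  obtain ⟨y, hy, hyp⟩ : ∃ y ∈ A, y ∉ insert x (univ.image p) := by
    by_contra hcon
    push Not at hcon
    have := Finset.card_le_card (show A ⊆ insert x (univ.image p) from hcon)
    omega
  -- the part in `B`
  obtain ⟨v, hv⟩ : B.Nonempty := by
    rw [← Finset.card_pos]; omega
  obtain ⟨u, w, huw, huweq⟩ := Finset.card_eq_two.1 (hB2 v hv)
  have hu : u ∈ B ∧ G.Adj v u := by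
    have : u ∈ ({w ∈ B | G.Adj v w} : Finset V) := by rw [huweq]; simp
    simpa using this
  have hw : w ∈ B ∧ G.Adj v w := by
    have : w ∈ ({w ∈ B | G.Adj v w} : Finset V) := by rw [huweq]; simp
    simpa using this
  obtain ⟨z, hz, hzn⟩ : ∃ z ∈ B, z ∉ ({v, u, w} : Finset V) := by
    by_contra hcon
    push Not at hcon
    have := Finset.card_le_card (show B ⊆ {v, u, w} from hcon)
    have h5 : #({v, u, w} : Finset V) ≤ 3 := Finset.card_le_three
    omega
  have hp01 : p 0 ≠ p 1 := fun h => by simpa using hp h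
  have hp02 : p 0 ≠ p 2 := fun h => by simpa using hp h
  have hp03 : p 0 ≠ p 3 := fun h => by simpa using hp h
  have hp12 : p 1 ≠ p 2 := fun h => by simpa using hp h
  have hp13 : p 1 ≠ p 3 := fun h => by simpa using hp h
  have hp23 : p 2 ≠ p 3 := fun h => by simpa using hp h
  have hxp' : ∀ i, p i ≠ x := by
    intro i h
    exact hxp (by rw [← h]; exact mem_image_of_mem _ (mem_univ _))
  have hyp' : ∀ i, p i ≠ y := by
    intro i h
    exact hyp (by rw [← h]; exact mem_insert_of_mem (mem_image_of_mem _ (mem_univ _)))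
  have hxy : x ≠ y := by
    rintro rfl
    exact hyp (mem_insert_self _ _)
  simp only [mem_insert, mem_singleton, not_or] at hzn
  refine c4_copy G ![p 0, p 1, p 2, p 3, x, y] ![v, u, w, z] ?_ ?_ ?_ h1 h2 h3 h4 hu.2 hw.2
  · intro i j hij
    have := hxp' 0
    have := hxp' 1
    have := hxp' 2
    have := hxp' 3
    have := hyp' 0
    have := hyp' 1
    have := hyp' 2
    have := hyp' 3
    fin_cases i <;> fin_cases j <;> simp_all [eq_comm]
  · intro i j hij
    have h5 := hu.2.ne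
    have h6 := hw.2.ne
    obtain ⟨h7, h8, h9⟩ := hzn
    fin_cases i <;> fin_cases j <;> simp_all [eq_comm]
  · intro i j
    apply hAB
    · fin_cases i
      · exact hpA 0
      · exact hpA 1
      · exact hpA 2
      · exact hpA 3
      · exact hx
      · exact hy
    · fin_cases j
      · exact hv
      · exact hu.1
      · exact hw.1
      · exact hz

/-- The join of two 2-regular graphs whose numbers of vertices are not divisible by three
contains `L`. -/
theorem contains_of_two_regular {n : ℕ} (G : SimpleGraph (Fin n))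
    [DecidableRel G.Adj] (A : Finset (Fin n)) (hmA : 7 ≤ #A) (hmB : 7 ≤ #(univ \ A))
    (hA3 : ¬ 3 ∣ #A) (hB3 : ¬ 3 ∣ #(univ \ A)) (hA : ∀ v ∈ A, #{w ∈ A | G.Adj v w} = 2)
    (hB : ∀ v ∈ univ \ A, #{w ∈ univ \ A | G.Adj v w} = 2)
    (hAB : ∀ v ∈ A, ∀ w ∈ univ \ A, G.Adj v w) : L ⊑ G := by
  rcases c4_or_p5 G A hA hA3 with ⟨p, hp, hpA, q1, q2, q3, q4⟩ | ⟨p, hp, hpA, hpp⟩
  · exact xlup_c4 G A (univ \ A) (by omega) (by omega) hB hAB p hp hpA q1 q2 q3 q4
  rcases c4_or_p5 G (univ \ A) hB hB3 with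
    ⟨q, hq, hqB, q1, q2, q3, q4⟩ | ⟨q, hq, hqB, hqq⟩
  · exact xlup_c4 G (univ \ A) A (by omega) (by omega) hA
      (fun v hv w hw => (hAB w hw v hv).symm) q hq hqB q1 q2 q3 q4
  · exact p5_copy G p q hp hq (fun i j => hAB _ (hpA i) _ (hqB j)) hpp hqq

private theorem xlup_step : ∃ N₀ : ℕ, ∀ n, N₀ ≤ n + 1 →
    extremalNumber (n + 1) L ≤
      max ((n + 1) ^ 2 / 4 + (n + 1)) (extremalNumber n L + n / 2) := by
  classical
  obtain ⟨N₀, hN₀⟩ := exists_bipartition
  refine ⟨N₀, fun n hn => ?_⟩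
  conv_lhs => rw [← Fintype.card_fin (n + 1)]
  rw [extremalNumber_le_iff]
  intro G _ hfree
  by_cases hdeg : ∀ v, n + 1 ≤ 2 * G.degree v
  · obtain ⟨A, hA, hB⟩ := hN₀ (n + 1) hn G hfree hdeg
    have h1 := card_edges_le_of_bipartition G A hA hB
    have h2 := xlup_prod_le (xlup_card A)
    refine le_trans ?_ (le_max_left _ _)
    omega
  · push Not at hdeg
    obtain ⟨v, hv⟩ := hdeg
    have h1 := card_edgeFinset_deleteIncidenceSet_le_extremalNumber hfree v
    rw [G.card_edgeFinset_deleteIncidenceSet v, Fintype.card_fin, Nat.add_sub_cancel] at h1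
    refine le_trans ?_ (le_max_right _ _)
    omega

private theorem xlup_sq_step (n : ℕ) : n ^ 2 / 4 + n / 2 ≤ (n + 1) ^ 2 / 4 := by
  rcases Nat.even_or_odd' n with ⟨k, rfl | rfl⟩
  · have h1 : (2 * k) ^ 2 / 4 = k ^ 2 := by
      rw [show (2 * k) ^ 2 = 4 * k ^ 2 by ring]; simp
    have h2 : (2 * k + 1) ^ 2 / 4 = k ^ 2 + k := by
      rw [show (2 * k + 1) ^ 2 = 1 + 4 * (k ^ 2 + k) by ring, Nat.add_mul_div_left _ _ (by norm_num)]
      norm_num
    rw [h1, h2]
    omega
  · have h1 : (2 * k + 1) ^ 2 / 4 = k ^ 2 + k := by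
      rw [show (2 * k + 1) ^ 2 = 1 + 4 * (k ^ 2 + k) by ring, Nat.add_mul_div_left _ _ (by norm_num)]
      norm_num
    have h2 : (2 * k + 1 + 1) ^ 2 / 4 = (k + 1) ^ 2 := by
      rw [show (2 * k + 1 + 1) ^ 2 = 4 * (k + 1) ^ 2 by ring]; simp
    rw [h1, h2]
    have h3 : (2 * k + 1) / 2 = k := by omega
    rw [h3]
    nlinarith

/-- `ex(n; L) ≤ ⌊n²/4⌋ + n` for all large `n`. -/
theorem ex_le : ∀ᶠ n : ℕ in atTop, extremalNumber n L ≤ n ^ 2 / 4 + n := by
  obtain ⟨N, hstep⟩ := xlup_step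
  set E : ℕ := extremalNumber N L with hE
  have hind : ∀ i : ℕ, extremalNumber (N + i) L ≤ (N + i) ^ 2 / 4 + (N + i) + (E - i) := by
    intro i
    induction i with
    | zero =>
      rw [Nat.add_zero, Nat.sub_zero, ← hE]
      exact Nat.le_add_left _ _
    | succ i ih =>
      have h1 := hstep (N + i) (by omega)
      have h2 := xlup_sq_step (N + i)
      have hadd : N + (i + 1) = N + i + 1 := by ring
      rw [hadd]
      refine h1.trans (max_le (Nat.le_add_right _ _) ?_)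
      omega
  filter_upwards [eventually_ge_atTop (N + E)] with n hn
  obtain ⟨i, rfl⟩ : ∃ i, n = N + i := ⟨n - N, by omega⟩
  have h1 := hind i
  have h2 : E - i = 0 := by omega
  rw [h2, add_zero] at h1
  exact h1

private theorem xlup_parts {a b n : ℕ} (h : a + b = n) (hp : a * b = n ^ 2 / 4)
    (h6 : n % 6 = 2 ∨ n % 6 = 3 ∨ n % 6 = 4) (hn : 16 ≤ n) :
    7 ≤ a ∧ 7 ≤ b ∧ ¬ 3 ∣ a ∧ ¬ 3 ∣ b := by
  rcases Nat.even_or_odd' n with ⟨k, rfl | rfl⟩
  · have h1 : (2 * k) ^ 2 / 4 = k ^ 2 := by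
      rw [show (2 * k) ^ 2 = 4 * k ^ 2 by ring]; simp
    rw [h1] at hp
    have h2 : a = k := by
      zify at hp h ⊢
      have h3 : (b : ℤ) = 2 * k - a := by linarith
      rw [h3] at hp
      have h4 : ((a : ℤ) - k) ^ 2 = 0 := by nlinarith
      have h5 := pow_eq_zero_iff (two_ne_zero) |>.1 h4
      linarith
    omega
  · have h1 : (2 * k + 1) ^ 2 / 4 = k ^ 2 + k := by
      rw [show (2 * k + 1) ^ 2 = 1 + 4 * (k ^ 2 + k) by ring, Nat.add_mul_div_left _ _ (by norm_num)]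
      norm_num
    rw [h1] at hp
    have h2 : a = k ∨ a = k + 1 := by
      zify at hp h ⊢
      have h3 : (b : ℤ) = 2 * k + 1 - a := by linarith
      rw [h3] at hp
      have h4 : ((a : ℤ) - k) * (a - (k + 1)) = 0 := by nlinarith
      rcases mul_eq_zero.1 h4 with h5 | h5
      · left; linarith
      · right; linarith
    rcases h2 with rfl | rfl <;> omega

/-- `ex(n; L) < ⌊n²/4⌋ + n` for all large `n` which are `2, 3, 4` modulo six. -/
theorem ex_lt : ∀ᶠ n : ℕ in atTop, (n % 6 = 2 ∨ n % 6 = 3 ∨ n % 6 = 4) →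
    extremalNumber n L < n ^ 2 / 4 + n := by
  classical
  obtain ⟨N₀, hN₀⟩ := exists_bipartition
  have hex := ex_le
  rw [eventually_atTop] at hex
  obtain ⟨N₁, hN₁⟩ := hex
  filter_upwards [eventually_ge_atTop (N₀ + N₁ + 16)] with n hn h6
  have hkey : extremalNumber n L ≤ n ^ 2 / 4 + n - 1 := by
    conv_lhs => rw [← Fintype.card_fin n]
    rw [extremalNumber_le_iff]
    intro G _ hfree
    by_contra hcon
    have he : n ^ 2 / 4 + n ≤ #G.edgeFinset := by omega
    by_cases hdeg : ∀ v, n ≤ 2 * G.degree v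
    · obtain ⟨A, hA, hB⟩ := hN₀ n (by omega) G hfree hdeg
      obtain ⟨a1, a3, a4, a5⟩ := eq_case G A hA hB he
      obtain ⟨b1, b2, b3, b4⟩ := xlup_parts (xlup_card A) a1 h6 (by omega)
      exact hfree (contains_of_two_regular G A b1 b2 b3 b4 a3 a4 a5)
    · push Not at hdeg
      obtain ⟨v, hv⟩ := hdeg
      have h1 := card_edgeFinset_deleteIncidenceSet_le_extremalNumber hfree v
      rw [G.card_edgeFinset_deleteIncidenceSet v, Fintype.card_fin] at h1
      have h2 := hN₁ (n - 1) (by omega)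
      obtain ⟨k, rfl⟩ : ∃ k, n = k + 1 := ⟨n - 1, by omega⟩
      rw [Nat.add_sub_cancel] at h1 h2
      have h3 := xlup_sq_step k
      omega
  omega

end Pool.Agent.Helper37.XL
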